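import Pool.Agent.P.MP_b01859_ag.SG.Iface

/-! Step GEN. -/

set_option autoImplicit false

namespace Pool.Agent.P.MP_b01859_ag.SG

open MvPolynomial Matrix CategoryTheory RingTheory.Sequence

section aux

variable {σ I : Type}

lemma gen_comp0 (f : Pol σ) :
    weightedHomogeneousComponent (fun _ => (1 : ℤ)) 0 f = C (constantCoeff f) := by
  classical
  ext d
  rw [coeff_weightedHomogeneousComponent, coeff_C]
  by_cases hd : 0 = d
  · subst hd
    simp [constantCoeff_eq]
  · rw [if_neg hd, if_neg]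
    intro h
    apply hd
    have h1 : d.degree = 0 := by
      have : ((d.degree : ℕ) : ℤ) = 0 := by
        rw [← h]
        simp [Finsupp.weight_apply, Finsupp.sum, Finsupp.degree]
      exact_mod_cast this
    exact ((Finsupp.degree_eq_zero_iff d).1 h1).symm

lemma gen_sum [Fintype I] (g : I → ℤ) (v : I → Pol σ) :
    ∃ T : Finset ℤ, ∑ t ∈ T, comp g t v = v := by
  classical
  refine ⟨Finset.univ.biUnion fun a => (v a).support.image fun d =>
    Finsupp.weight (fun _ => (1 : ℤ)) d + g a, ?_⟩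
  funext a
  ext d
  rw [Finset.sum_apply, coeff_sum]
  simp only [comp, coeff_weightedHomogeneousComponent]
  by_cases hd : coeff d (v a) = 0
  · simp [hd]
  · rw [Finset.sum_eq_single (Finsupp.weight (fun _ => (1 : ℤ)) d + g a)]
    · simp
    · intro t _ ht
      rw [if_neg]
      intro h
      apply ht
      omega
    · intro h
      exact absurd (Finset.mem_biUnion.2 ⟨a, Finset.mem_univ _,
        Finset.mem_image.2 ⟨d, mem_support_iff.2 hd, rfl⟩⟩) h

/-- The columns of `V` are homogeneous generators of `N`. -/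
def gen_G (g : I → ℤ) (N : Submodule (Pol σ) (I → Pol σ)) {K : Type} [Fintype K] (g' : K → ℤ)
    (V : Matrix I K (Pol σ)) : Prop :=
  Hom g g' V ∧ (∀ w, V *ᵥ w ∈ N) ∧ ∀ v ∈ N, ∃ w, V *ᵥ w = v

lemma gen_ex [Fintype σ] [Fintype I] (g : I → ℤ) (N : Submodule (Pol σ) (I → Pol σ))
    (hN : ∀ v ∈ N, ∀ t, comp g t v ∈ N) :
    ∃ (K : Type) (_ : Fintype K) (g' : K → ℤ) (V : Matrix I K (Pol σ)), gen_G g N g' V := by
  classical
  set A : Set (I → Pol σ) :=
    {x | x ∈ N ∧ ∃ t, ∀ a, IsWeightedHomogeneous (fun _ => (1 : ℤ)) (x a) (t - g a)} with hA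
  have h1 : Submodule.span (Pol σ) A = N := by
    refine le_antisymm (Submodule.span_le.2 fun x hx => hx.1) fun v hv => ?_
    obtain ⟨T, hT⟩ := gen_sum g v
    rw [← hT]
    exact Submodule.sum_mem _ fun t _ => Submodule.subset_span
      ⟨hN v hv t, t, fun a => weightedHomogeneousComponent_isWeightedHomogeneous _ _⟩
  obtain ⟨s, hs, hs'⟩ := (Submodule.fg_span_iff_fg_span_finset_subset A).mp
    (by rw [h1]; exact IsNoetherian.noetherian N)
  choose g' hg using fun j : s => (hs j.2).2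
  have e : ∀ w : s → Pol σ, (Matrix.of fun a (j : s) => j.1 a) *ᵥ w = ∑ j : s, w j • j.1 := by
    intro w
    funext a
    simp [Matrix.mulVec, dotProduct, Finset.sum_apply, mul_comm]
  refine ⟨s, inferInstance, g', Matrix.of fun a j => j.1 a, fun a j => hg j a, fun w => ?_,
    fun v hv => ?_⟩
  · rw [e]
    exact N.sum_mem fun j _ => N.smul_mem _ (hs j.2).1
  · rw [← h1, hs'] at hv
    have hv' : v ∈ Submodule.span (Pol σ) (Set.range (Subtype.val : s → I → Pol σ)) := by
      simpa using hv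
    obtain ⟨w, hw⟩ := (Submodule.mem_span_range_iff_exists_fun _).1 hv'
    exact ⟨w, (e w).trans hw⟩

lemma gen_min (g : I → ℤ) (N : Submodule (Pol σ) (I → Pol σ)) (n : ℕ) :
    ∀ (K : Type) [Fintype K] (g' : K → ℤ) (V : Matrix I K (Pol σ)), Fintype.card K = n →
      gen_G g N g' V →
      ∃ (K : Type) (_ : Fintype K) (g' : K → ℤ) (V : Matrix I K (Pol σ)), gen_G g N g' V ∧
        ∀ w, V *ᵥ w = 0 → ∀ e, constantCoeff (w e) = 0 := by
  classical
  induction n using Nat.strong_induction_on with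
  | _ n ih =>
    intro K _ g' V hn hG
    by_cases h : ∀ w, V *ᵥ w = 0 → ∀ e, constantCoeff (w e) = 0
    · exact ⟨K, inferInstance, g', V, hG, h⟩
    push Not at h
    obtain ⟨w₀, hw₀, e, he⟩ := h
    have h1 : V *ᵥ comp g' (g' e) w₀ = 0 := by rw [hG.1.mulVec_comp, hw₀, comp_zero]
    have h2 : comp g' (g' e) w₀ e = C (constantCoeff (w₀ e)) := by
      rw [comp, sub_self, gen_comp0]
    have h3 : ∀ w : K → Pol σ, w e = 0 →
        V.submatrix id (Subtype.val : {x // x ≠ e} → K) *ᵥ (fun x => w x.1) = V *ᵥ w := by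
      intro w hw
      funext a
      simp only [Matrix.mulVec, dotProduct, submatrix_apply, id]
      rw [Fintype.sum_eq_add_sum_subtype_ne (fun x => V a x * w x) e, hw, mul_zero, zero_add]
    refine ih _ ?_ {x // x ≠ e} (fun x => g' x.1) (V.submatrix id Subtype.val) rfl
      ⟨fun a b => hG.1 a b.1, fun w => ?_, fun v hv => ?_⟩
    · rw [← hn]
      exact Fintype.card_subtype_lt (x := e) (by simp)
    · have := h3 (fun x => if h : x ≠ e then w ⟨x, h⟩ else 0) (by simp)
      have e2 : (fun x : {x // x ≠ e} => if h : x.1 ≠ e then w ⟨x.1, h⟩ else 0) = w :=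
        funext fun x => dif_pos x.2
      rw [e2] at this
      rw [this]
      exact hG.2.1 _
    · obtain ⟨w, rfl⟩ := hG.2.2 v hv
      refine ⟨_, (h3 (w - (w e * C (constantCoeff (w₀ e))⁻¹) • comp g' (g' e) w₀) ?_).trans ?_⟩
      · rw [Pi.sub_apply, Pi.smul_apply, h2, smul_eq_mul, mul_assoc, ← C_mul,
          inv_mul_cancel₀ he, C_1, mul_one, sub_self]
      · rw [mulVec_sub, mulVec_smul, h1, smul_zero, sub_zero]

lemma gen_mem [Fintype σ] (f : Pol σ) : f ∈ Ideal.ofList (xs σ) ↔ constantCoeff f = 0 := by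
  have e : Ideal.ofList (xs σ) = Ideal.span (X '' (Set.univ : Set σ) : Set (Pol σ)) := by
    rw [Ideal.ofList]
    congr 1
    ext x
    simp [xs]
  rw [e, mem_ideal_span_X_image, constantCoeff_eq]
  constructor
  · intro h
    by_contra h0
    obtain ⟨i, -, hi⟩ := h 0 (mem_support_iff.2 h0)
    exact hi rfl
  · intro h m hm
    by_contra h1
    push Not at h1
    have : m = 0 := Finsupp.ext fun i => h1 i trivial
    subst this
    exact mem_support_iff.1 hm h

end aux

theorem p_GEN :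
    S_GEN := by
  intro σ _ I _ g N hN
  classical
  obtain ⟨K₀, _, g₀, V₀, h₀⟩ := gen_ex g N hN
  obtain ⟨K, _, g', V, hG, hmin⟩ := gen_min g N _ K₀ g₀ V₀ rfl h₀
  refine ⟨K, inferInstance, g', V, hG.1, hG.2.1, hG.2.2, fun hreg w hw => ?_⟩
  let f₃ : (K → Pol σ) →ₗ[Pol σ] N := LinearMap.codRestrict N (Matrix.mulVecLin V) hG.2.1
  have h₃ : Function.Surjective f₃ := fun v => by
    obtain ⟨u, hu⟩ := hG.2.2 v.1 v.2
    exact ⟨u, Subtype.ext hu⟩
  have h₂₃ : Function.Exact (LinearMap.ker f₃).subtype f₃ := LinearMap.exact_subtype_ker_map f₃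
  have h₁₂ : Function.Exact (0 : PUnit.{1} →ₗ[Pol σ] LinearMap.ker f₃)
      (LinearMap.ker f₃).subtype := by
    intro y
    simp [eq_comm]
  have hex := map_first_exact_on_four_term_right_exact_of_isSMulRegular_last h₁₂ h₂₃ h₃ hreg
  have hle : (⊤ : Submodule (Pol σ) (LinearMap.ker f₃)) ≤ Ideal.ofList (xs σ) • ⊤ := by
    intro x _
    have hx : V *ᵥ x.1 = 0 := congrArg Subtype.val (LinearMap.mem_ker.1 x.2)
    have h4 : x.1 ∈ Ideal.ofList (xs σ) • (⊤ : Submodule (Pol σ) (K → Pol σ)) := by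
      rw [pi_eq_sum_univ x.1]
      exact Submodule.sum_mem _ fun e _ =>
        Submodule.smul_mem_smul ((gen_mem _).2 (hmin _ hx e)) trivial
    obtain ⟨y, hy⟩ := (hex (Submodule.Quotient.mk x)).1 (by
      rw [Submodule.mapQ_apply, Submodule.Quotient.mk_eq_zero]
      exact h4)
    obtain ⟨y, rfl⟩ := Submodule.Quotient.mk_surjective _ y
    rw [Submodule.mapQ_apply, LinearMap.zero_apply, Submodule.Quotient.mk_zero] at hy
    exact (Submodule.Quotient.mk_eq_zero _).1 hy.symm
  obtain ⟨r, hr, hr'⟩ := Submodule.exists_sub_one_mem_and_smul_eq_zero_of_fg_of_le_smul _ _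
    (IsNoetherian.noetherian _) hle
  have hr0 : r ≠ 0 := by
    rintro rfl
    simpa using (gen_mem _).1 hr
  have h5 := congrArg Subtype.val (hr' ⟨w, Subtype.ext hw⟩ trivial)
  exact (smul_eq_zero.1 h5).resolve_left hr0

end Pool.Agent.P.MP_b01859_ag.SG
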