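import Pool.Agent.P.MP_b01859_ag.SG.Iface

/-! Step KILL. -/

set_option autoImplicit false

namespace Pool.Agent.P.MP_b01859_ag.SG

open MvPolynomial Matrix CategoryTheory RingTheory.Sequence

lemma kill_A {R : Type} [CommRing R] (rs : List R) :
    ∀ (s : ℕ) (K F N : Type) [AddCommGroup K] [Module R K] [AddCommGroup F] [Module R F]
      [AddCommGroup N] [Module R N] (f : K →ₗ[R] F) (q : F →ₗ[R] N), Function.Injective f →
      Function.Exact f q → Function.Surjective q → IsWeaklyRegular F rs →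
      IsWeaklyRegular N (rs.take s) → IsWeaklyRegular K (rs.take (s + 1)) := by
  induction rs with
  | nil => intro s K F N _ _ _ _ _ _ f q _ _ _ _ _; exact IsWeaklyRegular.nil R K
  | cons r rs ih =>
    intro s K F N _ _ _ _ _ _ f q hf he hq hF hN
    rw [isWeaklyRegular_cons_iff] at hF
    rw [List.take_succ_cons, isWeaklyRegular_cons_iff]
    refine ⟨hF.1.of_injective f hf, ?_⟩
    cases s with
    | zero => exact IsWeaklyRegular.nil R _
    | succ s =>
      rw [List.take_succ_cons, isWeaklyRegular_cons_iff] at hN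
      have h0 : Function.Exact (0 : K →ₗ[R] K) f := fun x =>
        ⟨fun h => ⟨0, (hf (h.trans (map_zero f).symm)).symm⟩, by rintro ⟨y, rfl⟩; simp⟩
      have h1 := QuotSMulTop.map_first_exact_on_four_term_exact_of_isSMulRegular_last h0 he hN.1
      refine ih s _ _ _ (QuotSMulTop.map r f) (QuotSMulTop.map r q) ?_
        (QuotSMulTop.map_exact r he hq) (QuotSMulTop.map_surjective r hq) hF.2 hN.2
      rw [injective_iff_map_eq_zero]
      intro x hx
      obtain ⟨y, hy⟩ := (h1 x).mp hx
      rw [← hy, map_zero, LinearMap.zero_apply]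

lemma kill_B (σ : Type) [Fintype σ] : IsWeaklyRegular (Pol σ) (xs σ) := by
  classical
  refine ⟨fun i h => ?_⟩
  have hl : i < (Finset.univ : Finset σ).toList.length := by simpa [xs] using h
  have e1 : (xs σ)[i] = X ((Finset.univ : Finset σ).toList[i]) := by simp [xs]
  have e2 : (Ideal.ofList ((xs σ).take i) • ⊤ : Submodule (Pol σ) (Pol σ)) =
      Ideal.span (X '' {j | j ∈ (Finset.univ : Finset σ).toList.take i}) := by
    rw [smul_eq_mul, Ideal.mul_top, Ideal.ofList, xs, ← List.map_take]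
    congr 1
    ext z
    simp only [List.mem_map, Set.mem_ofPred_eq, Set.mem_image]
  rw [isSMulRegular_quotient_iff_mem_of_smul_mem, e1, e2]
  intro x hx
  rw [mem_ideal_span_X_image] at hx ⊢
  intro m hm
  obtain ⟨j, hj, hj'⟩ := hx (Finsupp.single ((Finset.univ : Finset σ).toList[i]) 1 + m) (by
    rw [smul_eq_mul, MvPolynomial.mem_support_iff, coeff_X_mul]
    exact MvPolynomial.mem_support_iff.mp hm)
  refine ⟨j, hj, ?_⟩
  have hne : j ≠ (Finset.univ : Finset σ).toList[i] := by
    rintro rfl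
    obtain ⟨n, hn, hn'⟩ := List.getElem_of_mem hj
    rw [List.getElem_take] at hn'
    have := (List.Nodup.getElem_inj_iff (Finset.nodup_toList _)).mp hn'
    rw [List.length_take] at hn
    omega
  simpa [Finsupp.single_eq_of_ne hne] using hj'

lemma kill_flat {σ : Type} [Fintype σ] (F : Type) [AddCommGroup F] [Module (Pol σ) F]
    [Module.Flat (Pol σ) F] : IsWeaklyRegular F (xs σ) :=
  ((TensorProduct.rid (Pol σ) F).isWeaklyRegular_congr _).mp
    (kill_B σ).isWeaklyRegular_lTensor

lemma kill_Fv {σ I : Type} [Fintype σ] [Fintype I] (c : I → ℤ) (k : ℤ) :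
    IsWeaklyRegular (Fv (σ := σ) c k) (xs σ) := by
  let r : (I → Pol σ) →ₗ[Pol σ] Fv (σ := σ) c k :=
    { toFun := fun v => ⟨cut c k v, supp_cut c k v⟩
      map_add' := fun v w => Subtype.ext (funext fun a => by
        by_cases h : c a = k <;> simp [cut, h])
      map_smul' := fun f v => Subtype.ext (funext fun a => by
        by_cases h : c a = k <;> simp [cut, h]) }
  have : Module.Flat (Pol σ) (Fv (σ := σ) c k) :=
    Module.Flat.of_retract (Fv c k).subtype r
      (LinearMap.ext fun v => Subtype.ext (Supp.cut v.2))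
  exact kill_flat _

lemma kill_step {σ I : Type} [Fintype σ] [Fintype I] (c : I → ℤ) (d : Matrix I I (Pol σ)) (k : ℤ)
    (s : ℕ) (h : IsWeaklyRegular ((Fv c k).map d.mulVecLin) ((xs σ).take s)) :
    IsWeaklyRegular (Fv c k ⊓ LinearMap.ker d.mulVecLin : Submodule (Pol σ) (I → Pol σ))
      ((xs σ).take (s + 1)) := by
  refine kill_A _ s _ _ _ (Submodule.inclusion inf_le_left) (d.mulVecLin.submoduleMap (Fv c k))
    (Submodule.inclusion_injective _) (fun x => ⟨fun hx => ?_, ?_⟩)
    (LinearMap.submoduleMap_surjective _ _) (kill_Fv c k) h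
  · exact ⟨⟨x.1, x.2, congrArg Subtype.val hx⟩, rfl⟩
  · rintro ⟨y, rfl⟩
    exact Subtype.ext y.2.2

lemma kill_ind {σ I : Type} [Fintype σ] [Fintype I] {c g : I → ℤ} {d : Matrix I I (Pol σ)}
    (hd : Cx c g d) (r : ℕ) : ∀ k : ℤ, (∀ l, k < l → l ≤ k + r → Ex c d l) →
    IsWeaklyRegular (Fv c k ⊓ LinearMap.ker d.mulVecLin : Submodule (Pol σ) (I → Pol σ))
      ((xs σ).take (r + 2)) := by
  induction r with
  | zero =>
    intro k _
    exact kill_step c d k 1 (kill_A _ 0 _ _ _ (Submodule.subtype _) (Submodule.mkQ _)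
      (Submodule.injective_subtype _) (LinearMap.exact_subtype_mkQ _)
      (Submodule.mkQ_surjective _) (kill_flat _) (IsWeaklyRegular.nil _ _))
  | succ r ih =>
    intro k hk
    refine kill_step c d k (r + 2) ?_
    have e : (Fv c k).map d.mulVecLin = Fv c (k + 1) ⊓ LinearMap.ker d.mulVecLin := by
      refine le_antisymm ?_ fun v hv => ?_
      · rintro _ ⟨u, hu, rfl⟩
        exact ⟨hd.deg.mulVec hu rfl, by
          show d *ᵥ (d *ᵥ u) = 0
          rw [mulVec_mulVec, hd.sq, zero_mulVec]⟩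
      · obtain ⟨u, hu, hu'⟩ := hk (k + 1) (by omega) (by push_cast; omega) v hv.1 hv.2
        rw [add_sub_cancel_right] at hu
        exact ⟨u, hu, hu'⟩
    rw [e]
    exact ih (k + 1) fun l h1 h2 => hk l (by omega) (by push_cast; omega)

theorem p_KILL (hGEN : S_GEN) :
    S_KILL := by
  intro σ _ I _ c g d k hd
  classical
  obtain ⟨K, _, g', V, h1, h2, h3, h4⟩ := hGEN σ I g (Fv c k ⊓ LinearMap.ker d.mulVecLin)
    fun v hv t => ⟨Supp.comp hv.1 g t, by
      have h0 : d *ᵥ v = 0 := hv.2
      show d *ᵥ comp g t v = 0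
      rw [hd.hom.mulVec_comp, h0, comp_zero]⟩
  refine ⟨K, inferInstance, g', V, h1, fun a e h => ?_, ?_, fun v hv hv' => h3 v ⟨hv, hv'⟩,
    fun r hr hk => h4 ?_⟩
  · have := (h2 (Pi.single e 1)).1 a (by simpa using h)
    dsimp only
    omega
  · ext1 a e
    have h0 : d *ᵥ (V *ᵥ Pi.single e 1) = 0 := (h2 (Pi.single e 1)).2
    rw [mulVec_mulVec] at h0
    simpa using congrFun h0 a
  · have := kill_ind hd r k hk
    rwa [List.take_of_length_le (by simpa [xs] using hr)] at this

end Pool.Agent.P.MP_b01859_ag.SG
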