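import Pool.Agent.P.MP_b01859_ag.SG.Iface

/-! Step TOWER. -/

set_option autoImplicit false

namespace Pool.Agent.P.MP_b01859_ag.SG

open MvPolynomial Matrix CategoryTheory RingTheory.Sequence

section tower

variable {σ J K K' : Type} [Fintype J] [Fintype K] [Fintype K']

lemma tower_cx {cJ gJ : J → ℤ} {cK gK : K → ℤ} {g' : K' → ℤ} {A : Matrix J J (Pol σ)}
    {ψ : Matrix J K (Pol σ)} {δ : Matrix K K (Pol σ)} {V : Matrix (J ⊕ K) K' (Pol σ)} {k : ℤ}
    (h : Cx (Sum.elim cJ cK) (Sum.elim gJ gK) (fromBlocks A ψ 0 δ))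
    (h1 : Hom (Sum.elim gJ gK) g' V) (h2 : Deg (Sum.elim cJ cK) (fun _ => k - 1) 1 V)
    (h3 : fromBlocks A ψ 0 δ * V = 0) :
    Cx (Sum.elim cJ (Sum.elim cK fun _ => k - 1)) (Sum.elim gJ (Sum.elim gK g'))
      (fromBlocks A (fromCols ψ V.toRows₁) 0 (fromBlocks δ V.toRows₂ 0 0)) := by
  refine ⟨?_, ?_, ?_⟩
  · rintro (a | a | a) (b | b | b) e
    exacts [h.deg (.inl a) (.inl b) e, h.deg (.inl a) (.inr b) e, h2 (.inl a) b e, absurd rfl e,
      h.deg (.inr a) (.inr b) e, h2 (.inr a) b e, absurd rfl e, absurd rfl e, absurd rfl e]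
  · rintro (a | a | a) (b | b | b)
    exacts [h.hom (.inl a) (.inl b), h.hom (.inl a) (.inr b), h1 (.inl a) b,
      isWeightedHomogeneous_zero ℂ _ _, h.hom (.inr a) (.inr b), h1 (.inr a) b,
      isWeightedHomogeneous_zero ℂ _ _, isWeightedHomogeneous_zero ℂ _ _,
      isWeightedHomogeneous_zero ℂ _ _]
  · have e : fromBlocks A (fromCols ψ V.toRows₁) 0 (fromBlocks δ V.toRows₂ 0 0) =
        (fromBlocks (fromBlocks A ψ 0 δ) V 0 (0 : Matrix K' K' (Pol σ))).submatrix
          (Equiv.sumAssoc J K K').symm (Equiv.sumAssoc J K K').symm := by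
      ext (a | a | a) (b | b | b) <;> rfl
    rw [e, submatrix_mul_equiv, fromBlocks_multiply, h.sq, h3]
    simp

omit [Fintype J] in
lemma tower_ψ (ψ : Matrix J K (Pol σ)) (W : Matrix J K' (Pol σ)) (q : K → Pol σ)
    (w : K' → Pol σ) : fromCols ψ W *ᵥ Sum.elim q w = ψ *ᵥ q + W *ᵥ w :=
  fromCols_mulVec_sumElim _ _ _ _

lemma tower_δ (δ : Matrix K K (Pol σ)) (W : Matrix K K' (Pol σ)) (q : K → Pol σ)
    (w : K' → Pol σ) : fromBlocks δ W 0 (0 : Matrix K' K' (Pol σ)) *ᵥ Sum.elim q w =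
      Sum.elim (δ *ᵥ q + W *ᵥ w) 0 := by
  rw [fromBlocks_mulVec]
  simp

lemma tower_D (A : Matrix J J (Pol σ)) (ψ : Matrix J K (Pol σ)) (δ : Matrix K K (Pol σ))
    (y : J → Pol σ) (q : K → Pol σ) :
    fromBlocks A ψ 0 δ *ᵥ Sum.elim y q = Sum.elim (A *ᵥ y + ψ *ᵥ q) (δ *ᵥ q) := by
  rw [fromBlocks_mulVec]
  simp

omit [Fintype J] [Fintype K] in
lemma tower_V (V : Matrix (J ⊕ K) K' (Pol σ)) (w : K' → Pol σ) :
    V *ᵥ w = Sum.elim (V.toRows₁ *ᵥ w) (V.toRows₂ *ᵥ w) := by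
  funext a
  rcases a with a | a <;> rfl

omit [Fintype J] [Fintype K] in
lemma tower_split (v : J ⊕ K → Pol σ) : ∃ y q, v = Sum.elim y q :=
  ⟨_, _, (Sum.elim_comp_inl_inr v).symm⟩

omit [Fintype J] [Fintype K] in
lemma tower_inj {y y' : J → Pol σ} {q q' : K → Pol σ} (h : Sum.elim y q = Sum.elim y' q') :
    y = y' ∧ q = q' :=
  ⟨funext fun a => congrFun h (.inl a), funext fun a => congrFun h (.inr a)⟩

omit [Fintype J] [Fintype K] in
lemma tower_zero {y : J → Pol σ} {q : K → Pol σ} (h : Sum.elim y q = 0) : y = 0 ∧ q = 0 :=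
  ⟨funext fun a => congrFun h (.inl a), funext fun a => congrFun h (.inr a)⟩

omit [Fintype J] [Fintype K] in
lemma tower_supp {cJ : J → ℤ} {cK : K → ℤ} {k : ℤ} {y : J → Pol σ} {q : K → Pol σ} :
    Supp (Sum.elim cJ cK) k (Sum.elim y q) ↔ Supp cJ k y ∧ Supp cK k q :=
  ⟨fun h => ⟨fun a => h (.inl a), fun a => h (.inr a)⟩, fun h a => by
    rcases a with a | a
    exacts [h.1 a, h.2 a]⟩

end tower

theorem p_TOWER (hKILL : S_KILL) :
    S_TOWER := by
  intro σ _ J _ cJ gJ A k₀ t hA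
  induction t with
  | zero =>
    refine ⟨Empty, inferInstance, fun _ => 0, fun _ => 0, 0, 0, ⟨?_, ?_, ?_⟩, fun e => e.elim,
      fun k h1 h2 => by omega, fun _ _ q _ _ _ => Subsingleton.elim _ _⟩
    · rintro (a | a) (b | b) e
      exacts [hA.deg a b e, b.elim, a.elim, a.elim]
    · rintro (a | a) (b | b)
      exacts [hA.hom a b, b.elim, a.elim, a.elim]
    · rw [fromBlocks_multiply, hA.sq]
      simp
  | succ t ih =>
    obtain ⟨K, _, cK, gK, ψ, δ, hC, hb, h3, -⟩ := ih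
    obtain ⟨K', _, g', V, v1, v2, v3, v4, v5⟩ := hKILL σ (J ⊕ K) _ _ _ (k₀ - t) hC
    refine ⟨K ⊕ K', inferInstance, _, _, _, _, tower_cx hC v1 v2 v3, ?_, ?_, ?_⟩
    · rintro (e | e)
      · have := hb e
        simp only [Sum.elim_inl]
        omega
      · simp only [Sum.elim_inr]
        omega
    · intro k k1 k2 y q hy hq e1 e2
      obtain ⟨q, w, rfl⟩ := tower_split q
      obtain rfl : w = 0 := (tower_supp.1 hq).2.eq_zero fun _ => by omega
      replace hq := (tower_supp.1 hq).1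
      rw [tower_ψ, mulVec_zero, add_zero] at e1
      rw [tower_δ, mulVec_zero, add_zero] at e2
      replace e2 := (tower_zero e2).1
      by_cases hk : k₀ - t < k
      · obtain ⟨q', a1, a2, a3⟩ := h3 k hk k2 y q hy hq e1 e2
        exact ⟨Sum.elim q' 0, tower_supp.2 ⟨a1, Supp.zero⟩,
          by rw [tower_ψ, mulVec_zero, add_zero, a2], by rw [tower_δ, mulVec_zero, add_zero, a3]⟩
      · obtain rfl : k = k₀ - t := by omega
        obtain ⟨w, hw⟩ := v4 (Sum.elim y q) (tower_supp.2 ⟨hy, hq⟩)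
          (by rw [tower_D, e1, e2, Sum.elim_zero_zero])
        rw [tower_V] at hw
        obtain ⟨a1, a2⟩ := tower_inj hw
        exact ⟨Sum.elim 0 w, tower_supp.2 ⟨Supp.zero, fun _ _ => rfl⟩,
          by rw [tower_ψ, mulVec_zero, zero_add, a1], by rw [tower_δ, mulVec_zero, zero_add, a2]⟩
    · intro hσ hE q hq e1 e2
      obtain ⟨q, w, rfl⟩ := tower_split q
      obtain rfl : q = 0 := (tower_supp.1 hq).1.eq_zero fun e => by
        have := hb e
        omega
      rw [tower_ψ, mulVec_zero, zero_add] at e1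
      rw [tower_δ, mulVec_zero, zero_add] at e2
      have hw : w = 0 := by
        refine v5 (t + 1) hσ (fun l l1 l2 v hv e => ?_) w
          (by rw [tower_V, e1, (tower_zero e2).1, Sum.elim_zero_zero])
        obtain ⟨y, q, rfl⟩ := tower_split v
        obtain ⟨hy, hq⟩ := tower_supp.1 hv
        rw [tower_D] at e
        obtain ⟨b1, b2⟩ := tower_zero e
        by_cases hl : l ≤ k₀
        · obtain ⟨q', a1, a2, a3⟩ := h3 l l1 hl y q hy hq b1 b2
          exact ⟨Sum.elim 0 q', tower_supp.2 ⟨Supp.zero, a1⟩,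
            by rw [tower_D, mulVec_zero, zero_add, a2, a3]⟩
        · obtain rfl : l = k₀ + 1 := by omega
          obtain rfl : q = 0 := hq.eq_zero fun e => by
            have := hb e
            omega
          rw [mulVec_zero, add_zero] at b1
          obtain ⟨y', a1, a2⟩ := hE y hy b1
          exact ⟨Sum.elim y' 0, tower_supp.2 ⟨a1, Supp.zero⟩,
            by rw [tower_D, mulVec_zero, add_zero, a2, mulVec_zero]⟩
      rw [hw, Sum.elim_zero_zero]

end Pool.Agent.P.MP_b01859_ag.SG
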