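import Pool.Agent.P.MP_b01859_ag.SG.Iface

/-! Assembling the steps. -/

namespace Pool.Agent.P.MP_b01859_ag.SG

open MvPolynomial Matrix CategoryTheory

/-- The final statement. -/
def S_MAIN : Prop :=
  ∀ (σ : Type) [Fintype σ] (M : Type) [AddCommGroup M] [Module ℂ M] [Module (Pol σ) M]
    [IsScalarTower ℂ (Pol σ) M] [Module.Finite (Pol σ) M] (ℳ : ℤ → Submodule ℂ M),
    DirectSum.IsInternal ℳ → (∀ i k m, m ∈ ℳ k → (X i : Pol σ) • m ∈ ℳ (k + 1)) →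
    (∀ p : PrimeSpectrum (Pol σ), (∃ i, X i ∉ p.asIdeal) →
      Module.Free (Localization.AtPrime p.asIdeal) (LocalizedModule p.asIdeal.primeCompl M) ∧
      Module.finrank (Localization.AtPrime p.asIdeal)
        (LocalizedModule p.asIdeal.primeCompl M) = 2) →
    ∀ j : ℕ, 1 ≤ j → j + 2 ≤ Fintype.card σ →
    Subsingleton (Abelian.Ext (ModuleCat.of (Pol σ) M) (ModuleCat.of (Pol σ) (Pol σ)) j) →
    ∃ (a b : ℤ) (φ : M →ₗ[Pol σ] Pol σ × Pol σ),
      (∀ (k : ℤ) (m : M), m ∈ ℳ k →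
        IsWeightedHomogeneous (fun _ => (1 : ℤ)) (φ m).1 (k + a) ∧
        IsWeightedHomogeneous (fun _ => (1 : ℤ)) (φ m).2 (k + b)) ∧
      ∀ p : PrimeSpectrum (Pol σ), (∃ i, X i ∉ p.asIdeal) →
        Function.Bijective (LocalizedModule.map p.asIdeal.primeCompl φ)

theorem assemble (hGL : S_GL) (hGAUSS : S_GAUSS) (hRES : S_RES) (hEXT : S_EXT) (hQLS : S_QLS)
    (hEND : S_END) : S_MAIN := by
  classical
  intro σ _ M _ _ _ _ _ ℳ hint hgr hfree j hj hjN hext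
  have hne : Nonempty σ := Fintype.card_pos_iff.mp (by omega)
  obtain ⟨I, _, c, g, d, m, hcx, hc0, hmg, hm0, hsp, hrel, hex⟩ := hRES σ M ℳ hint hgr j
  have hE := hEXT σ M I c d m j hcx.deg hcx.sq hm0 hsp hrel hex hj hext
  obtain ⟨K, _, _, cK, gK, δ, ψ, hQ, hcK, hψ, hψδ, hloc⟩ := hQLS σ I c g d j hcx hc0 hj hjN hE
  let ρ : (I → Pol σ) →ₗ[Pol σ] M := Fintype.linearCombination (Pol σ) m
  have hρ : ∀ v, ρ v = ∑ a, v a • m a := fun v => rfl
  have hρcut : ∀ v, ρ (cut c 0 v) = ρ v := by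
    intro v
    refine Finset.sum_congr rfl fun a _ => ?_
    by_cases h : c a = 0
    · simp [cut, h]
    · simp [hm0 a h]
  have hρs : ∀ x, ∃ v, Supp c 0 v ∧ ρ v = x := by
    intro x
    obtain ⟨v, hv⟩ := (Submodule.mem_span_range_iff_exists_fun (Pol σ)).mp
      (hsp ▸ Submodule.mem_top : x ∈ Submodule.span (Pol σ) (Set.range m))
    exact ⟨_, supp_cut c 0 v, (hρcut v).trans hv⟩
  have hP : ∀ p : Ideal (Pol σ), Off p → ∃ f ∉ p, ∃ ι π h, LSr c d (-(j : ℤ)) f ι π h := by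
    intro p hp
    have := hp.1
    obtain ⟨h1, h2⟩ := hfree ⟨p, hp.1⟩ hp.2
    obtain ⟨u₁, u₂, hu, hu'⟩ := local_basis (M := M) p h2
    obtain ⟨v₁, hv₁, e₁⟩ := hρs u₁
    obtain ⟨v₂, hv₂, e₂⟩ := hρs u₂
    let ι : Matrix I (Fin 2) (Pol σ) := of fun a k => ![v₁ a, v₂ a] k
    have hι : ∀ y, ι *ᵥ y = y 0 • v₁ + y 1 • v₂ := by
      intro y
      funext a
      simp [ι, mulVec, dotProduct, Fin.sum_univ_two, mul_comm]
    have hι0 : Deg c (fun _ => 0) 0 ι := by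
      intro a k h
      fin_cases k
      · simpa using hv₁ a h
      · simpa using hv₂ a h
    have hdι : d * ι = 0 := by
      ext1 a k
      by_contra h
      have h3 : c a = 0 + (1 + 0) := (hcx.deg.mul hι0 rfl) a k h
      have := hc0 a
      omega
    obtain ⟨f, hf, π, h, H⟩ := hGL σ I c d ι p (-(j : ℤ)) hp.1 (by omega) hcx.deg hcx.sq hι0 hdι
      (fun k hk v hv h0 => by
        rcases lt_trichotomy k 0 with h | rfl | h
        · obtain ⟨u, -, e⟩ := hex k hk (by omega) v hv h0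
          exact ⟨1, hp.one, u, 0, by simp [e]⟩
        · obtain ⟨t, c₁, c₂, ht, e⟩ := hu (ρ v)
          obtain ⟨u, -, e'⟩ := (hrel (t • v - (c₁ • v₁ + c₂ • v₂))
            ((hv.smul t).sub ((hv₁.smul _).add (hv₂.smul _)))).mp
            (by rw [← hρ]; simp [e, e₁, e₂])
          exact ⟨t, ht, u, ![c₁, c₂], by simp [hι, e']⟩
        · have h3 : v = 0 := hv.eq_zero fun a => by have := hc0 a; omega
          exact ⟨1, hp.one, 0, 0, by simp [h3]⟩)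
      (fun u y hu1 h0 => by
        have h3 : ρ (d *ᵥ u) = 0 := (hrel _ (hcx.deg.mulVec hu1 rfl)).mpr ⟨u, hu1, rfl⟩
        have h4 := congrArg ρ h0
        rw [map_add, h3, hι, zero_add, map_add, map_smul, map_smul, e₁, e₂, map_zero] at h4
        obtain ⟨h5, h6⟩ := hu' _ _ h4
        funext k
        fin_cases k
        · exact h5
        · exact h6)
    exact ⟨f, hf, ι, π, h, H⟩
  obtain ⟨K', _, _, c', g', d', ψ', hQ', hc', hψ', hloc', hmin⟩ := hGAUSS σ I (fun a => - g a)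
    _ _ (fun p Y => ∃ f ∉ p, ∃ ι π h, LSr c d (-(j : ℤ)) f ι π h ∧ Y = πᵀ) K cK gK δ ψ hQ hcK hψ
    hψδ (fun p hp => by
      obtain ⟨f, hf, ι, π, h, H⟩ := hP p hp
      obtain ⟨f', hf', ι', π', h', H', e⟩ := hloc p hp.1 f hf ι π h H
      exact ⟨f', hf', ι', π', h', H', f, hf, ι, π, h, H, e⟩)
  have hd' : d' = 0 := hEND σ K' c' g' d' _ _ hQ' hc' (by omega)
    (fun p hp => by
      obtain ⟨f, hf, ι, π, h, H, -⟩ := hloc' p hp
      exact ⟨f, hf, ι, π, h, H⟩) hmin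
  subst hd'
  obtain ⟨f₀, hf₀, ι₀, π₀, h₀, H₀, f₁, -, ι₁, π₁, h₁, H₁, e₀⟩ := hloc' ⊥ off_bot
  have hs₀ : ι₀ * π₀ = f₀ • 1 := by simpa using H₀.sum
  have hcard : Fintype.card K' = 2 := by
    have h1 := trace_mul_comm ι₀ π₀
    rw [hs₀, H₀.πι, trace_smul, trace_smul, trace_one, trace_one] at h1
    have h2 := mul_left_cancel₀ (Off.ne_zero hf₀) h1
    exact_mod_cast h2
  let e : Fin 2 ≃ K' := (Fintype.equivFinOfCardEq hcard).symm
  have hψπ : f₀ • ψ' = π₁ᵀ * π₀ := by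
    rw [← e₀, Matrix.mul_assoc, hs₀]
    simp
  have hker : ∀ v, ρ v = 0 → v ᵥ* ψ' = 0 := by
    intro v hv
    obtain ⟨u, -, hu⟩ := (hrel _ (supp_cut c 0 v)).mp ((hρcut v).trans hv)
    have h1 : π₁ *ᵥ v = 0 := by
      have h2 := H₁.π0.mulVec_cut v (l := 0) (m := 0) rfl
      rw [← hu, mulVec_mulVec, H₁.πd, zero_mulVec] at h2
      funext k
      simpa [cut] using (congrFun h2 k).symm
    have h3 : f₀ • (v ᵥ* ψ') = 0 := by
      rw [← vecMul_smul, hψπ, ← vecMul_vecMul, vecMul_transpose, h1, zero_vecMul]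
    exact (smul_eq_zero.mp h3).resolve_left (Off.ne_zero hf₀)
  let Φ : (I → Pol σ) →ₗ[Pol σ] Pol σ × Pol σ :=
    ((LinearMap.proj (e 0)).prod (LinearMap.proj (e 1))) ∘ₗ ψ'.vecMulLinear
  have hΦ : ∀ v, Φ v = ((v ᵥ* ψ') (e 0), (v ᵥ* ψ') (e 1)) := fun v => rfl
  have hsurj : Function.Surjective ρ := fun x => (hρs x).imp fun _ h => h.2
  obtain ⟨φ, hφ⟩ : ∃ φ : M →ₗ[Pol σ] Pol σ × Pol σ, ∀ v, φ (ρ v) = Φ v := by
    refine ⟨(LinearMap.ker ρ).liftQ Φ (fun v hv => ?_) ∘ₗ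
      (ρ.quotKerEquivOfSurjective hsurj).symm.toLinearMap, fun v => ?_⟩
    · rw [LinearMap.mem_ker, hΦ, hker v hv]
      rfl
    · simp [LinearMap.quotKerEquivOfSurjective_symm_apply]
  refine ⟨g' (e 0), g' (e 1), φ, fun k x hx => ?_, fun p hp => ?_⟩
  · obtain ⟨v, hv, rfl⟩ := eq_sum_comp hint.submodule_iSupIndep hgr hsp hmg hx
    have h1 : ∀ b, IsWeightedHomogeneous (fun _ => (1 : ℤ)) ((v ᵥ* ψ') b) (k + g' b) := by
      intro b
      refine IsWeightedHomogeneous.sum _ _ _ fun a _ => ?_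
      have := (hv a).mul (hψ' a b)
      rwa [show k - g a + (g' b - -g a) = k + g' b by ring] at this
    rw [← hρ, hφ, hΦ]
    exact ⟨h1 _, h1 _⟩
  · have hp' : Off p.asIdeal := ⟨p.isPrime, hp⟩
    obtain ⟨h1, h2⟩ := hfree p hp
    obtain ⟨u₁, u₂, hu, -⟩ := local_basis (M := M) p.asIdeal h2
    obtain ⟨f', -, ι', π', h', -, f, hf, ι, π, h, H, e'⟩ := hloc' p.asIdeal hp'
    refine bijective_of_det p.asIdeal φ hu (a := ρ (ιᵀ 0)) (b := ρ (ιᵀ 1)) fun hdet => ?_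
    have h3 : (ιᵀ * ψ').submatrix id e * ι'.submatrix e id = f • 1 := by
      rw [submatrix_mul_equiv, Matrix.mul_assoc, e', ← transpose_mul, H.πι]
      simp
    have h4 := congrArg det h3
    rw [det_mul, det_smul, det_one, mul_one, Fintype.card_fin] at h4
    have h5 : ((ιᵀ * ψ').submatrix id e).det = dt (φ (ρ (ιᵀ 0))) (φ (ρ (ιᵀ 1))) := by
      rw [hφ, hφ, hΦ, hΦ, det_fin_two]
      rfl
    exact hf (p.isPrime.mem_of_pow_mem 2 (h4 ▸ h5 ▸ Ideal.mul_mem_right _ _ hdet))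

end Pool.Agent.P.MP_b01859_ag.SG
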