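import Pool.Agent.P.MP_b01859_ag.Front

/-!
Graded complexes of free modules over a polynomial ring, written as one square matrix.
-/

namespace Pool.Agent.P.MP_b01859_ag.SG

open MvPolynomial Matrix

variable {σ : Type}

/-- The matrix `A` raises the cohomological degree by `k`. -/
def Deg {I J : Type} (c : I → ℤ) (c' : J → ℤ) (k : ℤ) (A : Matrix I J (Pol σ)) : Prop :=
  ∀ a b, A a b ≠ 0 → c a = c' b + k

/-- The matrix `A` preserves the internal degree. -/
def Hom {I J : Type} (g : I → ℤ) (g' : J → ℤ) (A : Matrix I J (Pol σ)) : Prop :=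
  ∀ a b, IsWeightedHomogeneous (fun _ => (1 : ℤ)) (A a b) (g' b - g a)

/-- The vector `v` lives in cohomological degree `k`. -/
def Supp {I : Type} (c : I → ℤ) (k : ℤ) (v : I → Pol σ) : Prop := ∀ a, v a ≠ 0 → c a = k

/-- Primes other than the irrelevant ideal. -/
def Off (p : Ideal (Pol σ)) : Prop := p.IsPrime ∧ ∃ i, X i ∉ p

/-- A graded complex. -/
structure Cx {I : Type} [Fintype I] (c g : I → ℤ) (d : Matrix I I (Pol σ)) : Prop where
  deg : Deg c c 1 d
  hom : Hom g g d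
  sq : d * d = 0

/-- Exactness in cohomological degree `k`. -/
def Ex {I : Type} [Fintype I] (c : I → ℤ) (d : Matrix I I (Pol σ)) (k : ℤ) : Prop :=
  ∀ v, Supp c k v → d *ᵥ v = 0 → ∃ u, Supp c (k - 1) u ∧ d *ᵥ u = v

/-- Up to the factor `f` the complex contracts, in degrees at least `k₀`, onto a free module of
rank two in degree zero. -/
structure LSr {I : Type} [Fintype I] [DecidableEq I] (c : I → ℤ) (d : Matrix I I (Pol σ)) (k₀ : ℤ)
    (f : Pol σ) (ι : Matrix I (Fin 2) (Pol σ)) (π : Matrix (Fin 2) I (Pol σ))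
    (h : Matrix I I (Pol σ)) : Prop where
  ι0 : Deg c (fun _ => 0) 0 ι
  π0 : Deg (fun _ => 0) c 0 π
  h0 : Deg c c (-1) h
  dι : d * ι = 0
  πd : π * d = 0
  πι : π * ι = f • (1 : Matrix (Fin 2) (Fin 2) (Pol σ))
  sum : ∀ a b, k₀ ≤ c b → (ι * π + d * h + h * d) a b = (f • (1 : Matrix I I (Pol σ))) a b

/-- Up to the factor `f` the complex contracts onto a free module of rank two in degree zero. -/
structure LS {I : Type} [Fintype I] [DecidableEq I] (c : I → ℤ) (d : Matrix I I (Pol σ))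
    (f : Pol σ) (ι : Matrix I (Fin 2) (Pol σ)) (π : Matrix (Fin 2) I (Pol σ))
    (h : Matrix I I (Pol σ)) : Prop where
  ι0 : Deg c (fun _ => 0) 0 ι
  π0 : Deg (fun _ => 0) c 0 π
  h0 : Deg c c (-1) h
  dι : d * ι = 0
  πd : π * d = 0
  πι : π * ι = f • (1 : Matrix (Fin 2) (Fin 2) (Pol σ))
  sum : ι * π + d * h + h * d = f • (1 : Matrix I I (Pol σ))

/-- The component of internal degree `t` of a vector. -/
noncomputable def comp {I : Type} (g : I → ℤ) (t : ℤ) (v : I → Pol σ) : I → Pol σ :=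
  fun a => weightedHomogeneousComponent (fun _ => (1 : ℤ)) (t - g a) (v a)

/-- The part of cohomological degree `k` of a vector. -/
noncomputable def cut {I : Type} (c : I → ℤ) (k : ℤ) (v : I → Pol σ) : I → Pol σ :=
  fun a => if c a = k then v a else 0

/-- The list of all variables. -/
noncomputable def xs (σ : Type) [Fintype σ] : List (Pol σ) :=
  (Finset.univ : Finset σ).toList.map X

/-- Boundaries in degree `k`. -/
def Bd {R V : Type} [CommRing R] [AddCommGroup V] [Module R V] (F : ℤ → Submodule R V)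
    (D : V →ₗ[R] V) (k : ℤ) : Submodule R (F k) :=
  ((F (k - 1)).map D).comap (F k).subtype

/-- Degree `k` modulo boundaries. -/
abbrev Wq {R V : Type} [CommRing R] [AddCommGroup V] [Module R V] (F : ℤ → Submodule R V)
    (D : V →ₗ[R] V) (k : ℤ) : Type := F k ⧸ Bd F D k

section lemmas

variable {I J K : Type}

lemma Off.ne_zero {p : Ideal (Pol σ)} {f : Pol σ} (hf : f ∉ p) : f ≠ 0 :=
  fun h => hf (h ▸ p.zero_mem)

lemma Off.mul {p : Ideal (Pol σ)} (hp : Off p) {f f' : Pol σ} (hf : f ∉ p) (hf' : f' ∉ p) :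
    f * f' ∉ p := fun h => (hp.1.mem_or_mem h).elim hf hf'

lemma Off.one {p : Ideal (Pol σ)} (hp : Off p) : (1 : Pol σ) ∉ p :=
  (Ideal.ne_top_iff_one p).mp hp.1.ne_top

lemma off_bot [Nonempty σ] : Off (⊥ : Ideal (Pol σ)) :=
  ⟨Ideal.isPrime_bot, Classical.arbitrary σ, by simp [X_ne_zero]⟩

lemma Deg.zero {c : I → ℤ} {c' : J → ℤ} {k : ℤ} : Deg c c' k (0 : Matrix I J (Pol σ)) :=
  fun _ _ h => absurd rfl h

lemma Deg.one [DecidableEq I] {c : I → ℤ} : Deg c c 0 (1 : Matrix I I (Pol σ)) := by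
  intro a b h
  by_cases hab : a = b
  · simp [hab]
  · exact absurd (one_apply_ne hab) h

lemma Deg.add {c : I → ℤ} {c' : J → ℤ} {k : ℤ} {A B : Matrix I J (Pol σ)} (hA : Deg c c' k A)
    (hB : Deg c c' k B) : Deg c c' k (A + B) := by
  intro a b h
  by_cases h1 : A a b = 0
  · exact hB a b (by simpa [h1] using h)
  · exact hA a b h1

lemma Deg.smul {c : I → ℤ} {c' : J → ℤ} {k : ℤ} {A : Matrix I J (Pol σ)} (hA : Deg c c' k A)
    (f : Pol σ) : Deg c c' k (f • A) :=
  fun a b h => hA a b fun h1 => h (by simp [h1])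

lemma Deg.neg {c : I → ℤ} {c' : J → ℤ} {k : ℤ} {A : Matrix I J (Pol σ)} (hA : Deg c c' k A) :
    Deg c c' k (-A) :=
  fun a b h => hA a b fun h1 => h (by simp [h1])

lemma Deg.sub {c : I → ℤ} {c' : J → ℤ} {k : ℤ} {A B : Matrix I J (Pol σ)} (hA : Deg c c' k A)
    (hB : Deg c c' k B) : Deg c c' k (A - B) := by
  rw [sub_eq_add_neg]
  exact hA.add hB.neg

lemma Deg.mul [Fintype J] {c : I → ℤ} {c' : J → ℤ} {c'' : K → ℤ} {k l m : ℤ}
    {A : Matrix I J (Pol σ)} {B : Matrix J K (Pol σ)} (hA : Deg c c' k A) (hB : Deg c' c'' l B)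
    (hm : k + l = m) : Deg c c'' m (A * B) := by
  intro a e h
  rw [mul_apply] at h
  obtain ⟨b, -, hb⟩ := Finset.exists_ne_zero_of_sum_ne_zero h
  have h1 := hA a b (left_ne_zero_of_mul hb)
  have h2 := hB b e (right_ne_zero_of_mul hb)
  omega

lemma Deg.transpose {c : I → ℤ} {c' : J → ℤ} {k : ℤ} {A : Matrix I J (Pol σ)}
    (hA : Deg c c' k A) : Deg (fun b => - c' b) (fun a => - c a) k Aᵀ := by
  intro b a h
  have := hA a b h
  dsimp only
  omega

lemma Deg.mulVec [Fintype J] {c : I → ℤ} {c' : J → ℤ} {k l m : ℤ} {A : Matrix I J (Pol σ)}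
    {v : J → Pol σ} (hA : Deg c c' k A) (hv : Supp c' l v) (hm : l + k = m) :
    Supp c m (A *ᵥ v) := by
  intro a h
  rw [Matrix.mulVec, dotProduct] at h
  obtain ⟨b, -, hb⟩ := Finset.exists_ne_zero_of_sum_ne_zero h
  have h1 := hA a b (left_ne_zero_of_mul hb)
  have h2 := hv b (right_ne_zero_of_mul hb)
  omega

lemma Supp.zero {c : I → ℤ} {k : ℤ} : Supp c k (0 : I → Pol σ) := fun _ h => absurd rfl h

lemma Supp.add {c : I → ℤ} {k : ℤ} {v w : I → Pol σ} (hv : Supp c k v) (hw : Supp c k w) :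
    Supp c k (v + w) := by
  intro a h
  by_cases h1 : v a = 0
  · exact hw a (by simpa [h1] using h)
  · exact hv a h1

lemma Supp.smul {c : I → ℤ} {k : ℤ} {v : I → Pol σ} (hv : Supp c k v) (f : Pol σ) :
    Supp c k (f • v) :=
  fun a h => hv a fun h1 => h (by simp [h1])

lemma Supp.neg {c : I → ℤ} {k : ℤ} {v : I → Pol σ} (hv : Supp c k v) : Supp c k (-v) :=
  fun a h => hv a fun h1 => h (by simp [h1])

lemma Supp.sub {c : I → ℤ} {k : ℤ} {v w : I → Pol σ} (hv : Supp c k v) (hw : Supp c k w) :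
    Supp c k (v - w) := by
  rw [sub_eq_add_neg]
  exact hv.add hw.neg

lemma Supp.eq_zero {c : I → ℤ} {k : ℤ} {v : I → Pol σ} (hv : Supp c k v) (h : ∀ a, c a ≠ k) :
    v = 0 :=
  funext fun a => by_contra fun h1 => h a (hv a h1)

lemma supp_cut (c : I → ℤ) (k : ℤ) (v : I → Pol σ) : Supp c k (cut c k v) := by
  intro a h
  by_contra h1
  exact h (if_neg h1)

lemma Supp.cut {c : I → ℤ} {k : ℤ} {v : I → Pol σ} (hv : Supp c k v) : cut c k v = v := by
  funext a
  by_cases h : c a = k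
  · exact if_pos h
  · rw [SG.cut, if_neg h]
    exact (by_contra fun h1 => h (hv a (Ne.symm h1)))

lemma Deg.mulVec_cut [Fintype J] {c : I → ℤ} {c' : J → ℤ} {k l m : ℤ} {A : Matrix I J (Pol σ)}
    (hA : Deg c c' k A) (v : J → Pol σ) (hm : l + k = m) :
    A *ᵥ cut c' l v = cut c m (A *ᵥ v) := by
  funext a
  simp only [Matrix.mulVec, dotProduct, cut]
  split_ifs with h
  · refine Finset.sum_congr rfl fun b _ => ?_
    by_cases h1 : A a b = 0
    · simp [h1]
    · have := hA a b h1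
      rw [if_pos (by omega)]
  · refine Finset.sum_eq_zero fun b _ => ?_
    by_cases h1 : A a b = 0
    · simp [h1]
    · have := hA a b h1
      rw [if_neg (by omega), mul_zero]

/-- Vectors of cohomological degree `k`. -/
def Fv (c : I → ℤ) (k : ℤ) : Submodule (Pol σ) (I → Pol σ) where
  carrier := {v | Supp c k v}
  add_mem' := Supp.add
  zero_mem' := Supp.zero
  smul_mem' := fun f _ hv => Supp.smul hv f

lemma mem_Fv {c : I → ℤ} {k : ℤ} {v : I → Pol σ} : v ∈ Fv c k ↔ Supp c k v := Iff.rfl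

lemma Hom.zero {g : I → ℤ} {g' : J → ℤ} : Hom g g' (0 : Matrix I J (Pol σ)) :=
  fun _ _ => isWeightedHomogeneous_zero ℂ _ _

lemma Hom.one [DecidableEq I] {g : I → ℤ} : Hom g g (1 : Matrix I I (Pol σ)) := by
  intro a b
  by_cases hab : a = b
  · subst hab
    rw [one_apply_eq, sub_self]
    exact isWeightedHomogeneous_one ℂ _
  · rw [one_apply_ne hab]
    exact isWeightedHomogeneous_zero ℂ _ _

lemma Hom.add {g : I → ℤ} {g' : J → ℤ} {A B : Matrix I J (Pol σ)} (hA : Hom g g' A)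
    (hB : Hom g g' B) : Hom g g' (A + B) :=
  fun a b => (hA a b).add (hB a b)

lemma Hom.neg {g : I → ℤ} {g' : J → ℤ} {A : Matrix I J (Pol σ)} (hA : Hom g g' A) :
    Hom g g' (-A) :=
  fun a b _ h => hA a b (by simpa using h)

lemma Hom.sub {g : I → ℤ} {g' : J → ℤ} {A B : Matrix I J (Pol σ)} (hA : Hom g g' A)
    (hB : Hom g g' B) : Hom g g' (A - B) := by
  rw [sub_eq_add_neg]
  exact hA.add hB.neg

lemma Hom.mul [Fintype J] {g : I → ℤ} {g' : J → ℤ} {g'' : K → ℤ} {A : Matrix I J (Pol σ)}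
    {B : Matrix J K (Pol σ)} (hA : Hom g g' A) (hB : Hom g' g'' B) : Hom g g'' (A * B) := by
  intro a e
  rw [mul_apply]
  refine IsWeightedHomogeneous.sum _ _ _ fun b _ => ?_
  have := (hA a b).mul (hB b e)
  rwa [show g' b - g a + (g'' e - g' b) = g'' e - g a by ring] at this

lemma Hom.transpose {g : I → ℤ} {g' : J → ℤ} {A : Matrix I J (Pol σ)} (hA : Hom g g' A) :
    Hom (fun b => - g' b) (fun a => - g a) Aᵀ := by
  intro b a
  have := hA a b
  rwa [show g' b - g a = - g a - - g' b by ring] at this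

lemma Hom.mulVec_comp [Fintype J] {g : I → ℤ} {g' : J → ℤ} {A : Matrix I J (Pol σ)}
    (hA : Hom g g' A) (t : ℤ) (v : J → Pol σ) : A *ᵥ comp g' t v = comp g t (A *ᵥ v) := by
  funext a
  simp only [Matrix.mulVec, dotProduct, comp, map_sum]
  refine Finset.sum_congr rfl fun b _ => ?_
  rw [← comp_mul (hA a b), show g' b - g a + (t - g' b) = t - g a by ring]

lemma Supp.comp {c : I → ℤ} {k : ℤ} {v : I → Pol σ} (hv : Supp c k v) (g : I → ℤ) (t : ℤ) :
    Supp c k (comp g t v) :=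
  fun a h => hv a fun h1 => h (by simp [SG.comp, h1])

lemma comp_zero (g : I → ℤ) (t : ℤ) : comp g t (0 : I → Pol σ) = 0 := by
  funext a
  simp [comp]

lemma Cx.transpose [Fintype I] {c g : I → ℤ} {d : Matrix I I (Pol σ)} (h : Cx c g d) :
    Cx (fun a => - c a) (fun a => - g a) dᵀ :=
  ⟨h.deg.transpose, h.hom.transpose, by rw [← transpose_mul, h.sq, transpose_zero]⟩

end lemmas

end Pool.Agent.P.MP_b01859_ag.SG
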