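import Mathlib

/-!
The algebraic core: three polynomial identities and a regular sequence of length three.
-/

namespace Pool.Agent.P.MP_b01859_ag.SG

open RingTheory.Sequence

variable {R W : Type} [CommRing R] [AddCommGroup W] [Module R W]

lemma mem_cons_smul {z : R} {rs : List R} {w : W} :
    w ∈ (Ideal.ofList (z :: rs) • ⊤ : Submodule R W) ↔
      ∃ u, ∃ v ∈ (Ideal.ofList rs • ⊤ : Submodule R W), w = z • u + v := by
  rw [Ideal.ofList_cons, Submodule.sup_smul, Submodule.mem_sup, Submodule.ideal_span_singleton_smul]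
  constructor
  · rintro ⟨a, ha, v, hv, rfl⟩
    obtain ⟨u, -, rfl⟩ := (Submodule.mem_smul_pointwise_iff_exists _ _ _).mp ha
    exact ⟨u, v, hv, rfl⟩
  · rintro ⟨u, v, hv, rfl⟩
    exact ⟨z • u, Submodule.smul_mem_pointwise_smul _ _ _ Submodule.mem_top, v, hv, rfl⟩

lemma mem_nil_smul {w : W} : w ∈ (Ideal.ofList ([] : List R) • ⊤ : Submodule R W) ↔ w = 0 := by
  simp

lemma reg_three {z₁ z₂ z₃ : R} (hz : IsWeaklyRegular W [z₁, z₂, z₃]) :
    (∀ w : W, z₁ • w = 0 → w = 0) ∧ (∀ w u : W, z₂ • w = z₁ • u → ∃ u', w = z₁ • u') ∧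
      ∀ w u v : W, z₃ • w = z₁ • u + z₂ • v → ∃ u' v', w = z₁ • u' + z₂ • v' := by
  have h0 := (isSMulRegular_quotient_iff_mem_of_smul_mem _ _).mp (hz.regular_mod_prev 0 (by simp))
  have h1 := (isSMulRegular_quotient_iff_mem_of_smul_mem _ _).mp (hz.regular_mod_prev 1 (by simp))
  have h2 := (isSMulRegular_quotient_iff_mem_of_smul_mem _ _).mp (hz.regular_mod_prev 2 (by simp))
  simp only [List.take_zero, List.take_succ_cons, List.getElem_cons_zero, List.getElem_cons_succ,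
    mem_cons_smul, mem_nil_smul, exists_eq_left, add_zero] at h0 h1 h2
  refine ⟨h0, fun w u h => h1 w ⟨u, h⟩, fun w u v h => ?_⟩
  obtain ⟨u', _, ⟨v', rfl⟩, h3⟩ := h2 w ⟨u, _, ⟨v, rfl⟩, h⟩
  exact ⟨u', v', h3⟩

lemma sum_antisymm {σ : Type} [Fintype σ] (x : σ → R) {hf : R} (hhf : 2 * hf = 1) (u : σ → σ → W)
    (hu : ∀ s t, u t s = - u s t) : ∑ t, x t • ∑ s, x s • u s t = 0 := by
  have h1 : ∑ t, x t • ∑ s, x s • u s t = - ∑ t, x t • ∑ s, x s • u s t := by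
    simp only [Finset.smul_sum]
    conv_lhs => rw [Finset.sum_comm]
    rw [← Finset.sum_neg_distrib]
    refine Finset.sum_congr rfl fun s _ => ?_
    rw [← Finset.sum_neg_distrib]
    refine Finset.sum_congr rfl fun t _ => ?_
    rw [hu s t]
    module
  generalize ∑ t, x t • ∑ s, x s • u s t = y at h1
  have h2 : (2 : R) • y = 0 := by rw [two_smul]; exact add_eq_zero_iff_eq_neg.mpr h1
  rw [← one_smul R y, ← hhf, mul_comm, mul_smul, h2, smul_zero]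

lemma kz {σ : Type} [Fintype σ] (x : σ → R) {hf : R} (hhf : 2 * hf = 1) {z₁ z₂ z₃ : R}
    (hz : IsWeaklyRegular W [z₁, z₂, z₃]) (P : W) (Y₁ Y₂ : σ → W) (X₁₂ X₁₃ X₂₃ : σ → σ → W)
    (ha : ∀ s t, X₁₂ t s = - X₁₂ s t)
    (h6 : ∀ s t, z₁ • (z₁ • X₂₃ s t - z₂ • X₁₃ s t + z₃ • X₁₂ s t) = 0)
    (h5 : ∀ t, (z₁ * z₁) • Y₂ t - (z₂ * z₂) • Y₁ t = (z₁ * z₂) • ∑ s, x s • X₁₂ s t)
    (h3 : ∑ s, x s • Y₁ s = (z₁ * z₁) • P) : ∃ Y : σ → W, P = ∑ s, x s • Y s := by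
  obtain ⟨r1, r2, r3⟩ := reg_three hz
  have h7 : ∀ s t, ∃ u v, X₁₂ s t = z₁ • u + z₂ • v := fun s t =>
    r3 _ (- X₂₃ s t) (X₁₃ s t) (by linear_combination (norm := module) r1 _ (h6 s t))
  choose u v huv using h7
  set u' : σ → σ → W := fun s t => hf • (u s t - u t s) with hu'
  set v' : σ → σ → W := fun s t => hf • (v s t - v t s) with hv'
  have h8 : ∀ s t, X₁₂ s t = z₁ • u' s t + z₂ • v' s t := by
    intro s t
    have e1 := huv s t
    have e2 := huv t s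
    rw [ha s t] at e2
    have e3 : X₁₂ s t = (2 * hf) • X₁₂ s t := by rw [hhf, one_smul]
    simp only [hu', hv']
    linear_combination (norm := module) e3 + hf • e1 - hf • e2
  have h9 : ∀ t, ∃ y, Y₁ t + z₁ • ∑ s, x s • v' s t = (z₁ * z₁) • y := by
    intro t
    have e1 : ∑ s, x s • X₁₂ s t = z₁ • ∑ s, x s • u' s t + z₂ • ∑ s, x s • v' s t := by
      simp only [Finset.smul_sum, ← Finset.sum_add_distrib]
      refine Finset.sum_congr rfl fun s _ => ?_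
      rw [h8]
      module
    have e2 := h5 t
    rw [e1] at e2
    generalize ∑ s, x s • u' s t = U at e2
    generalize ∑ s, x s • v' s t = V at e2
    obtain ⟨a, ha⟩ := r2 (z₂ • (Y₁ t + z₁ • V)) (z₁ • (Y₂ t - z₂ • U))
      (by linear_combination (norm := module) -e2)
    obtain ⟨b, hb⟩ := r2 _ _ ha
    have e3 : z₂ • z₂ • b = z₁ • (Y₂ t - z₂ • U) := by
      rw [← sub_eq_zero]
      apply r1
      have e4 : Y₁ t = z₁ • b - z₁ • V := by rw [← hb]; abel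
      rw [e4] at e2
      linear_combination (norm := module) -e2
    obtain ⟨a', ha'⟩ := r2 _ _ e3
    obtain ⟨b', hb'⟩ := r2 _ _ ha'
    exact ⟨b', by rw [hb, hb', mul_smul]⟩
  choose y hy using h9
  refine ⟨y, ?_⟩
  rw [← sub_eq_zero]
  apply r1
  apply r1
  have e1 := sum_antisymm x hhf v' (fun s t => by simp only [hv']; module)
  have e2 : ∑ t, x t • (Y₁ t + z₁ • ∑ s, x s • v' s t) = (z₁ * z₁) • ∑ t, x t • y t := by
    rw [Finset.smul_sum]
    exact Finset.sum_congr rfl fun t _ => by rw [hy, smul_comm]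
  have e3 : ∑ t, x t • (Y₁ t + z₁ • ∑ s, x s • v' s t) =
      ∑ t, x t • Y₁ t + z₁ • ∑ t, x t • ∑ s, x s • v' s t := by
    rw [Finset.smul_sum, ← Finset.sum_add_distrib]
    exact Finset.sum_congr rfl fun t _ => by rw [smul_add, smul_comm]
  rw [e3, e1, h3] at e2
  linear_combination (norm := module) e2

variable {A : Type} [Ring A] [Algebra R A]

/-- The anticommutator. -/
def ac (a b : A) : A := a * b + b * a

lemma ac_sum_left {σ : Type} [Fintype σ] (x : σ → R) (G : σ → A) (b : A) :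
    ∑ s, x s • ac (G s) b = ac (∑ s, x s • G s) b := by
  simp only [ac, Finset.sum_mul, Finset.mul_sum, smul_add, Finset.sum_add_distrib, smul_mul_assoc,
    mul_smul_comm]

lemma ac_sum_right {σ : Type} [Fintype σ] (x : σ → R) (G : σ → A) (b : A) :
    ∑ s, x s • ac b (G s) = ac b (∑ s, x s • G s) := by
  simp only [ac, Finset.sum_mul, Finset.mul_sum, smul_add, Finset.sum_add_distrib, smul_mul_assoc,
    mul_smul_comm]

theorem abstract_core {σ : Type} [Fintype σ] (x : σ → R) {hf : R} (hhf : 2 * hf = 1)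
    {z₁ z₂ z₃ : R} (hz : IsWeaklyRegular W [z₁, z₂, z₃]) (L : A →ₗ[R] W) (Z : Submodule R A)
    (hZ : ∀ a ∈ Z, ∀ b ∈ Z, L (ac a b) = 0) (θ : A) (G₁ G₂ G₃ : σ → A)
    (hT₁ : z₁ • θ - ∑ s, x s • G₁ s ∈ Z) (hT₂ : z₂ • θ - ∑ s, x s • G₂ s ∈ Z)
    (h₁₂ : ∀ s, z₁ • G₂ s - z₂ • G₁ s ∈ Z) (h₁₃ : ∀ s, z₁ • G₃ s - z₃ • G₁ s ∈ Z) :
    ∃ Y : σ → W, L (ac θ θ) = ∑ s, x s • Y s := by
  set u₁ := ∑ s, x s • G₁ s with hu₁
  set u₂ := ∑ s, x s • G₂ s with hu₂
  refine kz x hhf hz _ (fun s => L (ac (G₁ s) (z₁ • θ + (z₁ • θ - u₁))))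
    (fun s => L (ac (G₂ s) (z₂ • θ + (z₂ • θ - u₂))))
    (fun s t => L (ac (G₁ s) (G₂ t) - ac (G₁ t) (G₂ s)))
    (fun s t => L (ac (G₁ s) (G₃ t) - ac (G₁ t) (G₃ s)))
    (fun s t => L (ac (G₂ s) (G₃ t) - ac (G₂ t) (G₃ s))) (fun s t => ?_) (fun s t => ?_)
    (fun t => ?_) ?_
  · rw [← map_neg, neg_sub]
  · have e := sub_eq_zero.mpr ((hZ _ (h₁₂ s) _ (h₁₃ t)).trans (hZ _ (h₁₂ t) _ (h₁₃ s)).symm)
    simp only [← map_smul, ← map_sub, ← map_add] at e ⊢
    rw [← e]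
    congr 1
    simp only [ac, mul_sub, sub_mul, smul_mul_assoc, mul_smul_comm]
    module
  · have e := hZ _ (h₁₂ t) _ (Z.add_mem (Z.smul_mem z₂ hT₁) (Z.smul_mem z₁ hT₂))
    have e1 : ∑ s, x s • L (ac (G₁ s) (G₂ t) - ac (G₁ t) (G₂ s)) =
        L (ac u₁ (G₂ t) - ac (G₁ t) u₂) := by
      simp only [← map_smul, ← map_sum, smul_sub, Finset.sum_sub_distrib, ac_sum_left,
        ac_sum_right, hu₁, hu₂]
    rw [e1, ← sub_eq_zero, ← e]
    simp only [← map_smul, ← map_sub]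
    congr 1
    simp only [ac, mul_sub, sub_mul, mul_add, add_mul, smul_mul_assoc, mul_smul_comm]
    module
  · have e := hZ _ hT₁ _ hT₁
    simp only [← map_smul, ← map_sum, ac_sum_left, ← hu₁]
    rw [← sub_eq_zero, ← neg_eq_zero, ← e, ← map_sub, ← map_neg]
    congr 1
    simp only [ac, mul_sub, sub_mul, mul_add, add_mul, smul_mul_assoc, mul_smul_comm]
    module

end Pool.Agent.P.MP_b01859_ag.SG
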