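import Pool.Agent.P.MP_b01859_ag.SG.Base

/-!
The steps of the proof, as separate statements.
-/

namespace Pool.Agent.P.MP_b01859_ag.SG

open MvPolynomial Matrix CategoryTheory RingTheory.Sequence

-- deps:
def S_DEP : Prop :=
  ∀ (σ : Type) [Fintype σ] (V : Type) [AddCommGroup V] [Module (Pol σ) V]
    [Module.Finite (Pol σ) V] [Module.Free (Pol σ) V]
    (F : ℤ → Submodule (Pol σ) V) (D : V →ₗ[Pol σ] V) (l : ℕ),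
    (∀ k, ∃ P : V →ₗ[Pol σ] F k, ∀ v : F k, P v = v) →
    (∀ k v, v ∈ F k → D v ∈ F (k + 1)) → (∀ v, D (D v) = 0) →
    (∀ k : ℤ, k < -(l : ℤ) → F k = ⊥) →
    (∀ k : ℤ, k < 0 → ∀ v ∈ F k, D v = 0 → ∀ p : Ideal (Pol σ), Off p →
      ∃ f ∉ p, ∃ u ∈ F (k - 1), D u = f • v) →
    l + 3 ≤ Fintype.card σ →
    (∀ w : Wq F D 0, (∀ p : Ideal (Pol σ), Off p → ∃ f ∉ p, f • w = 0) → w = 0) ∧
    ∀ J : Ideal (Pol σ), (∀ p : Ideal (Pol σ), p.IsPrime → J ≤ p → ∀ i, X i ∈ p) →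
      J • (⊤ : Submodule (Pol σ) (Wq F D 0)) = ⊤ ∨
      ∃ z₁ ∈ J, ∃ z₂ ∈ J, ∃ z₃ ∈ J, IsWeaklyRegular (Wq F D 0) [z₁, z₂, z₃]

-- deps:
def S_GL : Prop :=
  ∀ (σ I : Type) [Fintype I] [DecidableEq I] (c : I → ℤ) (d : Matrix I I (Pol σ))
    (ι : Matrix I (Fin 2) (Pol σ)) (p : Ideal (Pol σ)) (k₀ : ℤ),
    p.IsPrime → k₀ ≤ -1 → Deg c c 1 d → d * d = 0 → Deg c (fun _ => 0) 0 ι → d * ι = 0 →
    (∀ k, k₀ ≤ k → ∀ v, Supp c k v → d *ᵥ v = 0 →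
      ∃ f ∉ p, ∃ u y, d *ᵥ u + ι *ᵥ y = f • v) →
    (∀ u y, Supp c (-1) u → d *ᵥ u + ι *ᵥ y = 0 → y = 0) →
    ∃ f ∉ p, ∃ π h, LSr c d k₀ f ι π h

-- deps:
def S_GAUSS : Prop :=
  ∀ (σ J : Type) (gJ : J → ℤ) (lo hi : ℤ) (G : Ideal (Pol σ) → Matrix J (Fin 2) (Pol σ) → Prop)
    (I : Type) [Fintype I] [DecidableEq I] (c g : I → ℤ) (d : Matrix I I (Pol σ))
    (ψ : Matrix J I (Pol σ)),
    Cx c g d → (∀ a, lo ≤ c a ∧ c a ≤ hi) → Hom gJ g ψ → ψ * d = 0 →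
    (∀ p, Off p → ∃ f ∉ p, ∃ ι π h, LS c d f ι π h ∧ G p (ψ * ι)) →
    ∃ (I' : Type) (_ : Fintype I') (_ : DecidableEq I') (c' g' : I' → ℤ)
      (d' : Matrix I' I' (Pol σ)) (ψ' : Matrix J I' (Pol σ)),
      Cx c' g' d' ∧ (∀ a, lo ≤ c' a ∧ c' a ≤ hi) ∧ Hom gJ g' ψ' ∧
      (∀ p, Off p → ∃ f ∉ p, ∃ ι π h, LS c' d' f ι π h ∧ G p (ψ' * ι)) ∧
      ∀ a b, constantCoeff (d' a b) = 0

-- deps:
def S_GEN : Prop :=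
  ∀ (σ : Type) [Fintype σ] (I : Type) [Fintype I] (g : I → ℤ)
    (N : Submodule (Pol σ) (I → Pol σ)), (∀ v ∈ N, ∀ t, comp g t v ∈ N) →
    ∃ (K : Type) (_ : Fintype K) (g' : K → ℤ) (V : Matrix I K (Pol σ)),
      Hom g g' V ∧ (∀ w, V *ᵥ w ∈ N) ∧ (∀ v ∈ N, ∃ w, V *ᵥ w = v) ∧
      (IsWeaklyRegular N (xs σ) → ∀ w, V *ᵥ w = 0 → w = 0)

-- deps: GEN
def S_KILL : Prop :=
  ∀ (σ : Type) [Fintype σ] (I : Type) [Fintype I] (c g : I → ℤ) (d : Matrix I I (Pol σ)) (k : ℤ),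
    Cx c g d →
    ∃ (K : Type) (_ : Fintype K) (g' : K → ℤ) (V : Matrix I K (Pol σ)),
      Hom g g' V ∧ Deg c (fun _ => k - 1) 1 V ∧ d * V = 0 ∧
      (∀ v, Supp c k v → d *ᵥ v = 0 → ∃ w, V *ᵥ w = v) ∧
      ∀ r : ℕ, Fintype.card σ ≤ r + 2 → (∀ l, k < l → l ≤ k + r → Ex c d l) →
        ∀ w, V *ᵥ w = 0 → w = 0

-- deps: KILL
def S_TOWER : Prop :=
  ∀ (σ : Type) [Fintype σ] (J : Type) [Fintype J] (cJ gJ : J → ℤ) (A : Matrix J J (Pol σ))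
    (k₀ : ℤ) (t : ℕ), Cx cJ gJ A →
    ∃ (K : Type) (_ : Fintype K) (cK gK : K → ℤ) (ψ : Matrix J K (Pol σ))
      (δ : Matrix K K (Pol σ)),
      Cx (Sum.elim cJ cK) (Sum.elim gJ gK) (fromBlocks A ψ 0 δ) ∧
      (∀ e, k₀ - t ≤ cK e ∧ cK e ≤ k₀ - 1) ∧
      (∀ k, k₀ - t < k → k ≤ k₀ → ∀ y q, Supp cJ k y → Supp cK k q →
        A *ᵥ y + ψ *ᵥ q = 0 → δ *ᵥ q = 0 →
        ∃ q', Supp cK (k - 1) q' ∧ ψ *ᵥ q' = y ∧ δ *ᵥ q' = q) ∧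
      (Fintype.card σ ≤ t + 2 → Ex cJ A (k₀ + 1) →
        ∀ q, Supp cK (k₀ - t) q → ψ *ᵥ q = 0 → δ *ᵥ q = 0 → q = 0)

-- deps: GEN TOWER
def S_RES : Prop :=
  ∀ (σ : Type) [Fintype σ] (M : Type) [AddCommGroup M] [Module ℂ M] [Module (Pol σ) M]
    [IsScalarTower ℂ (Pol σ) M] [Module.Finite (Pol σ) M] (ℳ : ℤ → Submodule ℂ M),
    DirectSum.IsInternal ℳ → (∀ i k m, m ∈ ℳ k → (X i : Pol σ) • m ∈ ℳ (k + 1)) → ∀ j : ℕ,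
    ∃ (I : Type) (_ : Fintype I) (c g : I → ℤ) (d : Matrix I I (Pol σ)) (m : I → M),
      Cx c g d ∧ (∀ a, c a ≤ 0) ∧ (∀ a, m a ∈ ℳ (g a)) ∧ (∀ a, c a ≠ 0 → m a = 0) ∧
      Submodule.span (Pol σ) (Set.range m) = ⊤ ∧
      (∀ v, Supp c 0 v → (∑ a, v a • m a = 0 ↔ ∃ u, Supp c (-1) u ∧ d *ᵥ u = v)) ∧
      ∀ k : ℤ, -(j : ℤ) ≤ k → k ≤ -1 → Ex c d k

-- deps:
def S_EXT : Prop :=
  ∀ (σ : Type) (M : Type) [AddCommGroup M] [Module (Pol σ) M]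
    (I : Type) [Fintype I] (c : I → ℤ) (d : Matrix I I (Pol σ)) (m : I → M) (j : ℕ),
    Deg c c 1 d → d * d = 0 → (∀ a, c a ≠ 0 → m a = 0) →
    Submodule.span (Pol σ) (Set.range m) = ⊤ →
    (∀ v, Supp c 0 v → (∑ a, v a • m a = 0 ↔ ∃ u, Supp c (-1) u ∧ d *ᵥ u = v)) →
    (∀ k : ℤ, -(j : ℤ) ≤ k → k ≤ -1 → Ex c d k) → 1 ≤ j →
    Subsingleton (Abelian.Ext (ModuleCat.of (Pol σ) M) (ModuleCat.of (Pol σ) (Pol σ)) j) →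
    Ex (fun a => - c a) dᵀ j

-- deps: GL TOWER
def S_QLS : Prop :=
  ∀ (σ : Type) [Fintype σ] (J : Type) [Fintype J] [DecidableEq J] (c g : J → ℤ)
    (d : Matrix J J (Pol σ)) (j : ℕ), Cx c g d → (∀ a, c a ≤ 0) → 1 ≤ j →
    j + 2 ≤ Fintype.card σ → Ex (fun a => - c a) dᵀ j →
    ∃ (K : Type) (_ : Fintype K) (_ : DecidableEq K) (cK gK : K → ℤ) (δ : Matrix K K (Pol σ))
      (ψ : Matrix J K (Pol σ)),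
      Cx cK gK δ ∧ (∀ e, (j : ℤ) + 2 - Fintype.card σ ≤ cK e ∧ cK e ≤ (j : ℤ) - 1) ∧
      Hom (fun a => - g a) gK ψ ∧ ψ * δ = 0 ∧
      ∀ p : Ideal (Pol σ), p.IsPrime → ∀ f ∉ p, ∀ ι π h, LSr c d (-(j : ℤ)) f ι π h →
        ∃ f' ∉ p, ∃ ι' π' h', LS cK δ f' ι' π' h' ∧ ψ * ι' = πᵀ

-- deps: DEP
def S_CORE : Prop :=
  ∀ (σ : Type) [Fintype σ] (I : Type) [Fintype I] [DecidableEq I] (c : I → ℤ)
    (d : Matrix I I (Pol σ)) (lo hi : ℤ) (θ : I → ℂ) (a : σ → Matrix I I (Pol σ)),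
    Deg c c 1 d → d * d = 0 → lo ≤ hi → (∀ e, lo ≤ c e ∧ c e ≤ hi) →
    hi - lo + 3 ≤ Fintype.card σ →
    (∀ p, Off p → ∃ f ∉ p, ∃ ι π h, LS c d f ι π h) → (∀ e e', constantCoeff (d e e') = 0) →
    (∀ s, Deg c c 1 (a s)) → (∀ s, d * a s + a s * d = 0) →
    (∀ e e', d e e' * C (θ e' - θ e) = ∑ s, X s * a s e e') →
    (∑ e, ((-1 : ℂ) ^ c e) = 2) ∧ ∃ κ : ℂ, ∀ e, (2 * θ e - ∑ e', (-1 : ℂ) ^ c e' * θ e') ^ 2 = κ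

-- deps: CORE
def S_END : Prop :=
  ∀ (σ : Type) [Fintype σ] (I : Type) [Fintype I] [DecidableEq I] (c g : I → ℤ)
    (d : Matrix I I (Pol σ)) (lo hi : ℤ),
    Cx c g d → (∀ e, lo ≤ c e ∧ c e ≤ hi) → hi - lo + 3 ≤ Fintype.card σ →
    (∀ p, Off p → ∃ f ∉ p, ∃ ι π h, LS c d f ι π h) → (∀ e e', constantCoeff (d e e') = 0) →
    d = 0

end Pool.Agent.P.MP_b01859_ag.SG
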