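import Pool.Agent.P.MP_b01859_ag.SG.Iface
import Pool.Agent.P.MP_b01859_ag.SG.BaseAlg

/-! Step CORE. -/

set_option autoImplicit false

namespace Pool.Agent.P.MP_b01859_ag.SG

open MvPolynomial Matrix CategoryTheory RingTheory.Sequence

variable {σ I : Type} [Fintype I] [DecidableEq I]

/-- The sign matrix. -/
noncomputable def eps (σ : Type) (c : I → ℤ) : Matrix I I (Pol σ) :=
  diagonal fun a => C ((-1 : ℂ) ^ c a)

/-- The supertrace. -/
noncomputable def str (c : I → ℤ) : Matrix I I (Pol σ) →ₗ[Pol σ] Pol σ :=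
  traceLinearMap I (Pol σ) (Pol σ) ∘ₗ LinearMap.mulLeft (Pol σ) (eps σ c)

/-- Twice the part without supertrace. -/
noncomputable def tf (c : I → ℤ) : Matrix I I (Pol σ) →ₗ[Pol σ] Matrix I I (Pol σ) :=
  (2 : Pol σ) • LinearMap.id - (str c).smulRight 1

/-- The differential of the endomorphism complex. -/
noncomputable def Dm (c : I → ℤ) (d : Matrix I I (Pol σ)) :
    Matrix I I (Pol σ) →ₗ[Pol σ] Matrix I I (Pol σ) :=
  LinearMap.mulLeft (Pol σ) d -
    LinearMap.mulRight (Pol σ) (eps σ c * d) ∘ₗ LinearMap.mulLeft (Pol σ) (eps σ c)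

/-- Endomorphisms of degree `k`. -/
def Fm (σ : Type) (c : I → ℤ) (k : ℤ) : Submodule (Pol σ) (Matrix I I (Pol σ)) where
  carrier := {A | Deg c c k A}
  add_mem' := Deg.add
  zero_mem' := Deg.zero
  smul_mem' := fun f _ h => Deg.smul h f

/-- The part of degree `k` of an endomorphism. -/
noncomputable def Pm (σ : Type) (c : I → ℤ) (k : ℤ) : Matrix I I (Pol σ) →ₗ[Pol σ] Fm σ c k where
  toFun A := ⟨of fun a b => if c a = c b + k then A a b else 0,
    fun a b h => by_contra fun h1 => h (if_neg h1)⟩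
  map_add' A B := by
    ext a b
    by_cases h : c a = c b + k <;> simp [h]
  map_smul' f A := by
    ext a b
    by_cases h : c a = c b + k <;> simp [h]

variable {c : I → ℤ} {d : Matrix I I (Pol σ)}

lemma Pm_coe (k : ℤ) (A : Fm σ c k) : Pm σ c k A = A := by
  refine Subtype.ext (Matrix.ext fun a b => ?_)
  change (if c a = c b + k then A.1 a b else 0) = A.1 a b
  split_ifs with h
  · rfl
  · exact (by_contra fun h1 => h (A.2 a b (Ne.symm h1)))

lemma str_apply (A : Matrix I I (Pol σ)) : str c A = trace (eps σ c * A) := rfl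

lemma tf_apply (A : Matrix I I (Pol σ)) : tf c A = (2 : Pol σ) • A - str c A • 1 := rfl

lemma Dm_apply (A : Matrix I I (Pol σ)) : Dm c d A = d * A - eps σ c * A * (eps σ c * d) := rfl

lemma eps_mul {J : Type} [Fintype J] [DecidableEq J] {c' : J → ℤ} {k : ℤ} {A : Matrix I J (Pol σ)}
    (h : Deg c c' k A) : eps σ c * A = (C ((-1 : ℂ) ^ k) : Pol σ) • (A * eps σ c') := by
  ext1 a b
  simp only [eps, diagonal_mul, mul_diagonal, Matrix.smul_apply, smul_eq_mul]
  by_cases h1 : A a b = 0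
  · simp [h1]
  · rw [h a b h1, zpow_add₀ (by norm_num), map_mul]
    ring

lemma eps_sq : eps σ c * eps σ c = 1 := by
  rw [eps, diagonal_mul_diagonal, ← diagonal_one]
  congr 1
  funext a
  rw [← map_mul, ← mul_zpow]
  simp

lemma eps_deg : Deg c c 0 (eps σ c) := by
  intro a b h
  by_cases hab : a = b
  · simp [hab]
  · exact absurd (diagonal_apply_ne _ hab) h

lemma Dm_deg {k : ℤ} {A : Matrix I I (Pol σ)} (h : Deg c c k A) :
    Dm c d A = d * A - (C ((-1 : ℂ) ^ k) : Pol σ) • (A * d) := by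
  rw [Dm_apply, eps_mul h, smul_mul_assoc, Matrix.mul_assoc, ← Matrix.mul_assoc (eps σ c), eps_sq,
    Matrix.one_mul]

lemma Dm_zero {A : Matrix I I (Pol σ)} (h : Deg c c 0 A) : Dm c d A = d * A - A * d := by
  simp [Dm_deg h]

lemma Dm_neg_one {A : Matrix I I (Pol σ)} (h : Deg c c (-1) A) : Dm c d A = d * A + A * d := by
  simp [Dm_deg h]

lemma Dm_one {A : Matrix I I (Pol σ)} (h : Deg c c 1 A) : Dm c d A = d * A + A * d := by
  simp [Dm_deg h]

lemma eps_d (hd : Deg c c 1 d) : eps σ c * d = - (d * eps σ c) := by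
  simp [eps_mul hd]

lemma Dm_Dm (hd : Deg c c 1 d) (h2 : d * d = 0) (A : Matrix I I (Pol σ)) :
    Dm c d (Dm c d A) = 0 := by
  have h1 := eps_d hd
  have h3 : eps σ c * d * (eps σ c * d) = 0 := by
    calc eps σ c * d * (eps σ c * d) = eps σ c * d * - (d * eps σ c) := by rw [← h1]
      _ = - (eps σ c * (d * d) * eps σ c) := by noncomm_ring
      _ = 0 := by simp [h2]
  simp only [Dm_apply]
  calc _ = (d * d) * A - (d * eps σ c + eps σ c * d) * A * (eps σ c * d)
        + eps σ c * eps σ c * A * (eps σ c * d * (eps σ c * d)) := by noncomm_ring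
    _ = 0 := by rw [h2, h3, h1]; simp

lemma str_bd (hd : Deg c c 1 d) (A : Matrix I I (Pol σ)) : str c (d * A + A * d) = 0 := by
  rw [str_apply, Matrix.mul_add, trace_add, ← Matrix.mul_assoc, ← Matrix.mul_assoc,
    trace_mul_comm _ d, ← Matrix.mul_assoc, ← trace_add, ← Matrix.add_mul, eps_d hd]
  simp

section loc

variable {f : Pol σ} {ι : Matrix I (Fin 2) (Pol σ)} {π : Matrix (Fin 2) I (Pol σ)}
  {h : Matrix I I (Pol σ)}

lemma LS.str_mid (H : LS c d f ι π h) (T : Matrix (Fin 2) (Fin 2) (Pol σ)) :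
    str c (ι * T * π) = f * trace T := by
  have h1 : eps σ c * ι = ι := by
    rw [eps_mul H.ι0]
    simp [eps]
  rw [str_apply, ← Matrix.mul_assoc, ← Matrix.mul_assoc, h1, trace_mul_comm, ← Matrix.mul_assoc,
    H.πι]
  simp

lemma LS.str_one (H : LS c d f ι π h) (hd : Deg c c 1 d) (hf : f ≠ 0) :
    str c (1 : Matrix I I (Pol σ)) = 2 := by
  have h1 := congrArg (str c) H.sum
  have h2 := H.str_mid 1
  rw [Matrix.mul_one] at h2
  rw [add_assoc, map_add, str_bd hd, h2, map_smul] at h1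
  apply mul_left_cancel₀ hf
  simpa using h1.symm

lemma LS.exact (H : LS c d f ι π h) {k : ℤ} (hk : k ≠ 0) {A : Matrix I I (Pol σ)}
    (hA : Deg c c k A) (h0 : Dm c d A = 0) :
    ∃ u, Deg c c (k - 1) u ∧ Dm c d u = (f * f) • A := by
  have h1 : π * A * ι = 0 := by
    ext1 a b
    by_contra h2
    exact hk (by simpa using (((H.π0.mul hA rfl).mul H.ι0 rfl) a b h2).symm)
  set s : Pol σ := C ((-1 : ℂ) ^ k) with hs
  have hs2 : s * s = 1 := by
    rw [hs, ← map_mul, ← mul_zpow]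
    simp
  have hs1 : (C ((-1 : ℂ) ^ (k - 1)) : Pol σ) = - s := by
    rw [zpow_sub₀ (by norm_num), hs, ← map_neg]
    congr 1
    simp [div_neg]
  rw [Dm_deg hA, sub_eq_zero] at h0
  have h3 : A * d = s • (d * A) := by rw [h0, smul_smul, hs2, one_smul]
  have hu : Deg c c (k - 1) (f • (h * A) + s • (ι * π * A * h)) :=
    ((H.h0.mul hA (by ring)).smul f).add
      ((((H.ι0.mul H.π0 rfl).mul hA rfl).mul H.h0 (by ring)).smul s)
  refine ⟨_, hu, ?_⟩
  have e1 : d * (ι * π * A * h) = 0 := by simp only [← Matrix.mul_assoc, H.dι, Matrix.zero_mul]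
  have e2 : ι * π * A * (d * h) = 0 := by
    rw [← Matrix.mul_assoc, Matrix.mul_assoc _ A, h3, Matrix.mul_smul, ← Matrix.mul_assoc,
      Matrix.mul_assoc ι, H.πd]
    simp
  have e3 : ι * π * A * (ι * π) = 0 := by
    rw [← Matrix.mul_assoc, Matrix.mul_assoc ι, Matrix.mul_assoc ι, h1]
    simp
  have e4 : (ι * π + d * h + h * d) * A = f • A := by rw [H.sum]; simp
  have e5 : ι * π * A * (ι * π + d * h + h * d) = f • (ι * π * A) := by rw [H.sum]; simp
  have e6 : h * A * d = s • (h * d * A) := by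
    rw [Matrix.mul_assoc, h3, Matrix.mul_smul, Matrix.mul_assoc]
  rw [Dm_deg hu, hs1]
  simp only [Matrix.mul_add, Matrix.add_mul, Matrix.mul_smul, Matrix.smul_mul, e1, e2, e3, e6,
    ← Matrix.mul_assoc] at e4 e5 ⊢
  have e7 : ∀ Y : Matrix I I (Pol σ), (s * s) • Y = Y := fun Y => by rw [hs2, one_smul]
  linear_combination (norm := module) f • e4 + e5 + f • e7 (h * d * A) + e7 (ι * π * A * h * d)

lemma LS.key (H : LS c d f ι π h) {A : Matrix I I (Pol σ)} (hA : Deg c c 0 A)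
    (h0 : d * A = A * d) :
    ∃ u, Deg c c (-1) u ∧ (f * f) • A = ι * (π * A * ι) * π + (d * u + u * d) := by
  refine ⟨f • (h * A) + ι * π * A * h, ((H.h0.mul hA (by ring)).smul f).add
      (((H.ι0.mul H.π0 rfl).mul hA rfl).mul H.h0 (by ring)), ?_⟩
  have e1 : d * (ι * π * A * h) = 0 := by simp only [← Matrix.mul_assoc, H.dι, Matrix.zero_mul]
  have e2 : ι * π * A * (d * h) = 0 := by
    rw [← Matrix.mul_assoc, Matrix.mul_assoc _ A, ← h0, ← Matrix.mul_assoc,
      Matrix.mul_assoc ι, H.πd]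
    simp
  have e4 : (ι * π + d * h + h * d) * A = f • A := by rw [H.sum]; simp
  have e5 : ι * π * A * (ι * π + d * h + h * d) = f • (ι * π * A) := by rw [H.sum]; simp
  have e6 : h * A * d = h * d * A := by rw [Matrix.mul_assoc, ← h0, Matrix.mul_assoc]
  simp only [Matrix.mul_add, Matrix.add_mul, Matrix.mul_smul, Matrix.smul_mul, e1, e2, e6,
    ← Matrix.mul_assoc] at e4 e5 ⊢
  linear_combination (norm := module) - f • e4 - e5

lemma LS.trace_bar (H : LS c d f ι π h) (hd : Deg c c 1 d) (hf : f ≠ 0) {A : Matrix I I (Pol σ)}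
    (hA : Deg c c 0 A) (h0 : d * A = A * d) : trace (π * A * ι) = f * str c A := by
  obtain ⟨u, -, hu⟩ := H.key hA h0
  have h1 := congrArg (str c) hu
  rw [map_add, str_bd hd, H.str_mid, map_smul, smul_eq_mul] at h1
  apply mul_left_cancel₀ hf
  linear_combination -h1

lemma LS.bar_mul (H : LS c d f ι π h) {A B : Matrix I I (Pol σ)} (hA : d * A = A * d)
    (hB : d * B = B * d) : f • (π * (A * B) * ι) = π * A * ι * (π * B * ι) := by
  have e1 : π * A * d = 0 := by rw [Matrix.mul_assoc, ← hA, ← Matrix.mul_assoc, H.πd]; simp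
  have e2 : d * (B * ι) = 0 := by rw [← Matrix.mul_assoc, hB, Matrix.mul_assoc, H.dι]; simp
  have e3 : π * A * (ι * π + d * h + h * d) * (B * ι) = f • (π * A * (B * ι)) := by
    rw [H.sum]; simp
  rw [Matrix.mul_add, Matrix.mul_add, Matrix.add_mul, Matrix.add_mul, ← Matrix.mul_assoc _ d, e1,
    ← Matrix.mul_assoc _ h, Matrix.mul_assoc _ d, e2] at e3
  simp only [Matrix.mul_assoc, Matrix.zero_mul, Matrix.mul_zero, add_zero] at e3 ⊢
  exact e3.symm

lemma two_by_two {P Q : Matrix (Fin 2) (Fin 2) (Pol σ)} (hP : trace P = 0) (hQ : trace Q = 0) :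
    (2 : Pol σ) • (P * Q + Q * P) = trace (P * Q + Q * P) • 1 := by
  rw [trace_fin_two] at hP hQ
  have h1 : P 1 1 = - P 0 0 := by linear_combination hP
  have h2 : Q 1 1 = - Q 0 0 := by linear_combination hQ
  ext1 a b
  fin_cases a <;> fin_cases b <;>
    simp [trace_fin_two, mul_apply, Fin.sum_univ_two, h1, h2] <;> ring

lemma tf_deg {A : Matrix I I (Pol σ)} (hA : Deg c c 0 A) : Deg c c 0 (tf c A) :=
  (hA.smul _).sub (Deg.one.smul _)

lemma tf_comm (A : Matrix I I (Pol σ)) :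
    d * tf c A - tf c A * d = (2 : Pol σ) • (d * A - A * d) := by
  simp only [tf_apply, Matrix.mul_sub, Matrix.sub_mul, Matrix.mul_smul, Matrix.smul_mul,
    Matrix.mul_one, Matrix.one_mul]
  module

lemma LS.ch (H : LS c d f ι π h) (hd : Deg c c 1 d) (hf : f ≠ 0) {A B : Matrix I I (Pol σ)}
    (hA : Deg c c 0 A) (hA' : d * A = A * d) (hA'' : str c A = 0)
    (hB : Deg c c 0 B) (hB' : d * B = B * d) (hB'' : str c B = 0) :
    ∃ u, Deg c c (-1) u ∧ Dm c d u = (f * f) • tf c (ac A B) := by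
  have h1 : Deg c c 0 (ac A B) := (hA.mul hB rfl).add (hB.mul hA rfl)
  have h2 : d * ac A B = ac A B * d := by
    simp only [ac, Matrix.mul_add, Matrix.add_mul, ← Matrix.mul_assoc, hA', hB']
    simp only [Matrix.mul_assoc, hA', hB']
  have h3 : d * tf c (ac A B) = tf c (ac A B) * d := by
    rw [← sub_eq_zero, tf_comm, h2, sub_self, smul_zero]
  obtain ⟨u, hu, e⟩ := H.key (tf_deg h1) h3
  refine ⟨u, hu, ?_⟩
  have tA := H.trace_bar hd hf hA hA'
  have tB := H.trace_bar hd hf hB hB'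
  have tC := H.trace_bar hd hf h1 h2
  rw [hA'', mul_zero] at tA
  rw [hB'', mul_zero] at tB
  have e1 : f • (π * ac A B * ι) = π * A * ι * (π * B * ι) + π * B * ι * (π * A * ι) := by
    rw [ac, Matrix.mul_add, Matrix.add_mul, smul_add, H.bar_mul hA' hB', H.bar_mul hB' hA']
  have e2 := two_by_two tA tB
  rw [← e1, trace_smul, tC] at e2
  have e3 : f • (π * tf c (ac A B) * ι) = 0 := by
    simp only [tf_apply, Matrix.mul_sub, Matrix.sub_mul, Matrix.mul_smul, Matrix.smul_mul,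
      Matrix.mul_one, H.πι, smul_eq_mul] at e2 ⊢
    linear_combination (norm := module) e2
  rw [e, (smul_eq_zero.mp e3).resolve_left hf, Dm_neg_one hu]
  simp

end loc

theorem p_CORE (hDEP : S_DEP) :
    S_CORE := by
  intro σ _ I _ _ c d lo hi θ a hd h2 hlh hc hN hLS hm ha ha' hθ
  have hne : Nonempty σ := Fintype.card_pos_iff.mp (by omega)
  have h1 : str c (1 : Matrix I I (Pol σ)) = 2 := by
    obtain ⟨f, hf, ι, π, h, H⟩ := hLS ⊥ off_bot
    exact H.str_one hd (Off.ne_zero hf)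
  have hex : ∀ k : ℤ, k ≠ 0 → ∀ v ∈ Fm σ c k, Dm c d v = 0 → ∀ p : Ideal (Pol σ), Off p →
      ∃ f ∉ p, ∃ u ∈ Fm σ c (k - 1), Dm c d u = f • v := by
    intro k hk v hv h0 p hp
    obtain ⟨f, hf, ι, π, h, H⟩ := hLS p hp
    obtain ⟨u, hu, e⟩ := H.exact hk hv h0
    exact ⟨f * f, hp.mul hf hf, u, hu, e⟩
  obtain ⟨hT, hR⟩ := hDEP σ (Matrix I I (Pol σ)) (Fm σ c) (Dm c d) (hi - lo).toNat
    (fun k => ⟨Pm σ c k, Pm_coe k⟩)
    (fun k v hv => by
      rw [Dm_deg hv]
      exact (hd.mul hv (by ring)).sub ((Deg.mul hv hd rfl).smul _))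
    (Dm_Dm hd h2)
    (fun k hk => by
      rw [eq_bot_iff]
      intro A hA
      refine Matrix.ext fun e e' => by_contra fun h => ?_
      have := hA e e' h
      have := hc e
      have := hc e'
      omega)
    (fun k hk => hex k hk.ne) (by omega)
  set pr : Matrix I I (Pol σ) →ₗ[Pol σ] Wq (Fm σ c) (Dm c d) 0 :=
    (Bd (Fm σ c) (Dm c d) 0).mkQ ∘ₗ Pm σ c 0 with hpr
  set θ₀ : Matrix I I (Pol σ) := diagonal fun e => C (θ e) with hθ₀
  have hθ₁ : Deg c c 0 θ₀ := by
    intro e e' h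
    by_cases hab : e = e'
    · simp [hab]
    · exact absurd (diagonal_apply_ne _ hab) h
  have hθ₂ : d * θ₀ - θ₀ * d = ∑ s, (X s : Pol σ) • a s := by
    ext1 e e'
    simp only [hθ₀, Matrix.sub_apply, mul_diagonal, diagonal_mul, Matrix.sum_apply,
      Matrix.smul_apply,
      smul_eq_mul, ← hθ, map_sub]
    ring
  let J : Ideal (Pol σ) := RingHom.ker constantCoeff ⊓
    ⨅ s, ((Fm σ c 0).map (Dm c d)).comap (LinearMap.toSpanSingleton _ _ (a s))
  have hJ : ∀ z ∈ J, ∃ G : σ → Matrix I I (Pol σ),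
      ∀ s, Deg c c 0 (G s) ∧ d * G s - G s * d = z • a s := by
    intro z hz
    have h3 := fun s => Submodule.mem_map.mp ((Submodule.mem_iInf _).mp hz.2 s)
    choose G hG hG' using h3
    exact ⟨G, fun s => ⟨hG s, by rw [← Dm_zero (hG s), hG']; rfl⟩⟩
  have hbig : ∀ p : Ideal (Pol σ), p.IsPrime → J ≤ p → ∀ i, X i ∈ p := by
    intro p hp hJp i
    by_contra hi
    have hp' : Off p := ⟨hp, i, hi⟩
    have h3 := fun s => hex 1 one_ne_zero (a s) (ha s) (by rw [Dm_one (ha s), ha']) p hp'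
    choose f hf u hu e using h3
    classical
    refine hp'.mul hi (fun h => ?_ : ∏ s, f s ∉ p) (hJp ⟨by simp, ?_⟩)
    · obtain ⟨s, -, hs⟩ := (Ideal.IsPrime.prod_mem_iff (hp := hp)).mp h
      exact hf s hs
    · refine (Submodule.mem_iInf _).mpr fun s => ?_
      refine ⟨(X i * ∏ t ∈ Finset.univ.erase s, f t) • u s,
        Submodule.smul_mem _ _ (by simpa using hu s), ?_⟩
      rw [map_smul, e, smul_smul, mul_assoc, Finset.prod_erase_mul _ _ (Finset.mem_univ s)]
      rfl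
  have hfin : pr (tf c (ac (tf c θ₀) (tf c θ₀))) ∈
      (RingHom.ker (constantCoeff : Pol σ →+* ℂ) : Ideal (Pol σ)) •
        (⊤ : Submodule (Pol σ) (Wq (Fm σ c) (Dm c d) 0)) := by
    rcases hR J hbig with h | ⟨z₁, hz₁, z₂, hz₂, z₃, hz₃, hz⟩
    · exact Submodule.smul_mono_left (inf_le_left : J ≤ _) (h.ge Submodule.mem_top)
    obtain ⟨G₁, hG₁⟩ := hJ z₁ hz₁
    obtain ⟨G₂, hG₂⟩ := hJ z₂ hz₂
    obtain ⟨G₃, hG₃⟩ := hJ z₃ hz₃
    let Z : Submodule (Pol σ) (Matrix I I (Pol σ)) :=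
      Fm σ c 0 ⊓ LinearMap.ker (Dm c d) ⊓ LinearMap.ker (str c)
    have hZ : ∀ A, Deg c c 0 A → d * A - A * d = 0 → tf c A ∈ Z := by
      intro A hA hA'
      refine ⟨⟨tf_deg hA, ?_⟩, ?_⟩
      · rw [SetLike.mem_coe, LinearMap.mem_ker, Dm_zero (tf_deg hA), tf_comm, hA', smul_zero]
      · rw [SetLike.mem_coe, LinearMap.mem_ker, tf_apply, map_sub, map_smul, map_smul, h1]
        simp [mul_comm]
    have hT' : ∀ (z : Pol σ) (G : σ → Matrix I I (Pol σ)),
        (∀ s, Deg c c 0 (G s) ∧ d * G s - G s * d = z • a s) →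
        z • tf c θ₀ - ∑ s, (X s : Pol σ) • tf c (G s) ∈ Z := by
      intro z G hG
      simp only [← map_smul, ← map_sum, ← map_sub]
      refine hZ _ ((hθ₁.smul z).sub
        ((Fm σ c 0).sum_mem fun s _ => (Fm σ c 0).smul_mem _ (hG s).1)) ?_
      have e1 : d * ∑ s, (X s : Pol σ) • G s - (∑ s, (X s : Pol σ) • G s) * d =
          z • ∑ s, (X s : Pol σ) • a s := by
        rw [Matrix.mul_sum, Matrix.sum_mul, ← Finset.sum_sub_distrib, Finset.smul_sum]
        refine Finset.sum_congr rfl fun s _ => ?_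
        rw [Matrix.mul_smul, Matrix.smul_mul, ← smul_sub, (hG s).2, smul_comm]
      simp only [Matrix.mul_sub, Matrix.sub_mul, Matrix.mul_smul, Matrix.smul_mul]
      linear_combination (norm := module) z • hθ₂ - e1
    have hG' : ∀ (z z' : Pol σ) (G G' : σ → Matrix I I (Pol σ)),
        (∀ s, Deg c c 0 (G s) ∧ d * G s - G s * d = z • a s) →
        (∀ s, Deg c c 0 (G' s) ∧ d * G' s - G' s * d = z' • a s) →
        ∀ s, z • tf c (G' s) - z' • tf c (G s) ∈ Z := by
      intro z z' G G' hG hG' s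
      simp only [← map_smul, ← map_sub]
      refine hZ _ (((hG' s).1.smul z).sub ((hG s).1.smul z')) ?_
      simp only [Matrix.mul_sub, Matrix.sub_mul, Matrix.mul_smul, Matrix.smul_mul]
      linear_combination (norm := module) z • (hG' s).2 - z' • (hG s).2
    obtain ⟨Y, hY⟩ := abstract_core (fun s => (X s : Pol σ)) (hf := C (1 / 2))
      (by rw [← map_ofNat C 2, ← map_mul]; norm_num) hz (pr ∘ₗ tf c) Z
      (fun A hA B hB => hT _ fun p hp => by
        obtain ⟨f, hf, ι, π, h, H⟩ := hLS p hp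
        have hA1 : d * A = A * d := sub_eq_zero.mp ((Dm_zero hA.1.1).symm.trans hA.1.2)
        have hB1 : d * B = B * d := sub_eq_zero.mp ((Dm_zero hB.1.1).symm.trans hB.1.2)
        obtain ⟨u, hu, e⟩ := H.ch hd (Off.ne_zero hf) hA.1.1 hA1 hA.2 hB.1.1 hB1 hB.2
        have h3 : Deg c c 0 (tf c (ac A B)) :=
          tf_deg ((Deg.mul hA.1.1 hB.1.1 rfl).add (Deg.mul hB.1.1 hA.1.1 rfl))
        refine ⟨f * f, hp.mul hf hf, ?_⟩
        rw [LinearMap.comp_apply, hpr, LinearMap.comp_apply, Pm_coe 0 ⟨_, h3⟩, ← map_smul,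
          Submodule.mkQ_apply, Submodule.Quotient.mk_eq_zero]
        exact ⟨u, hu, e⟩)
      (tf c θ₀) (fun s => tf c (G₁ s)) (fun s => tf c (G₂ s)) (fun s => tf c (G₃ s))
      (hT' _ _ hG₁) (hT' _ _ hG₂) (hG' _ _ _ _ hG₁ hG₂) (hG' _ _ _ _ hG₁ hG₃)
    rw [LinearMap.comp_apply] at hY
    rw [hY]
    exact Submodule.sum_mem _ fun s _ => Submodule.smul_mem_smul (by simp) Submodule.mem_top
  have hkey : ∀ w ∈ (RingHom.ker (constantCoeff : Pol σ →+* ℂ) : Ideal (Pol σ)) •
      (⊤ : Submodule (Pol σ) (Wq (Fm σ c) (Dm c d) 0)), ∀ A : Fm σ c 0,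
      Submodule.Quotient.mk A = w → ∀ e, constantCoeff (A.1 e e) = 0 := by
    have hb : ∀ A B : Fm σ c 0, (Submodule.Quotient.mk A : Wq (Fm σ c) (Dm c d) 0) =
        Submodule.Quotient.mk B → ∀ e, constantCoeff (A.1 e e) = constantCoeff (B.1 e e) := by
      intro A B hAB e
      obtain ⟨u, hu, e1⟩ := (Submodule.Quotient.eq _).mp hAB
      rw [Dm_neg_one hu] at e1
      have e2 := congrArg (fun T : Matrix I I (Pol σ) => constantCoeff (T e e)) e1
      simp only [Matrix.add_apply, mul_apply, map_add, map_sum, map_mul, hm, zero_mul, mul_zero,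
        Finset.sum_const_zero, add_zero, Submodule.subtype_apply, AddSubgroupClass.coe_sub,
        Matrix.sub_apply, map_sub] at e2
      exact sub_eq_zero.mp e2.symm
    intro w hw
    refine Submodule.smul_induction_on hw (fun r hr w _ A hA e => ?_)
      (fun w w' h h' A hA e => ?_)
    · obtain ⟨B, rfl⟩ := Submodule.Quotient.mk_surjective _ w
      rw [hb A (r • B) hA e]
      simp [RingHom.mem_ker.mp hr]
    · obtain ⟨B, rfl⟩ := Submodule.Quotient.mk_surjective _ w
      obtain ⟨B', rfl⟩ := Submodule.Quotient.mk_surjective _ w'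
      rw [hb A (B + B') hA e]
      simp [h B rfl e, h' B' rfl e]
  have hstr : ∀ φ : I → ℂ, str c (diagonal fun e => (C (φ e) : Pol σ)) =
      C (∑ e, (-1 : ℂ) ^ c e * φ e) := by
    intro φ
    simp [str_apply, eps, trace]
  refine ⟨?_, ?_⟩
  · have h3 := hstr fun _ => 1
    simp only [map_one, diagonal_one, h1, mul_one] at h3
    exact (C_injective σ ℂ (h3.symm.trans (map_ofNat C 2).symm))
  · have h3 : tf c θ₀ =
        diagonal fun e => (C (2 * θ e - ∑ e', (-1 : ℂ) ^ c e' * θ e') : Pol σ) := by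
      rw [tf_apply, hθ₀, hstr]
      ext1 e e'
      by_cases h : e = e'
      · simp [h, map_ofNat]
      · simp [h]
    refine ⟨constantCoeff (str c (ac (tf c θ₀) (tf c θ₀))) / 4, fun e => ?_⟩
    have h4 := hkey _ hfin _ rfl e
    change constantCoeff (if c e = c e + 0 then tf c (ac (tf c θ₀) (tf c θ₀)) e e else 0) = 0 at h4
    rw [if_pos (by simp), tf_apply] at h4
    generalize str c (ac (tf c θ₀) (tf c θ₀)) = κ at h4 ⊢
    rw [h3] at h4
    simp only [ac, diagonal_mul_diagonal, Matrix.sub_apply, Matrix.smul_apply, Matrix.add_apply,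
      diagonal_apply_eq, one_apply_eq, smul_eq_mul, map_sub, map_mul, map_add, constantCoeff_C,
      map_ofNat, map_one] at h4
    linear_combination h4 / 4

end Pool.Agent.P.MP_b01859_ag.SG
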