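import Pool.Agent.P.MP_b01859_ag.SG.Iface

/-! Step EXT. -/

set_option autoImplicit false

namespace Pool.Agent.P.MP_b01859_ag.SG

open MvPolynomial Matrix CategoryTheory RingTheory.Sequence

theorem ext_lift {R P N : Type} [CommRing R] [AddCommGroup P] [Module R P] [AddCommGroup N]
    [Module R N] (q : P →ₗ[R] N) (hq : Function.Surjective q) (S : ModuleCat.{0} R) (n : ℕ)
    (h : Subsingleton (Abelian.Ext (ModuleCat.of R N) S (n + 1)))
    (x : Abelian.Ext (ModuleCat.of R (LinearMap.ker q)) S n) :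
    ∃ y : Abelian.Ext (ModuleCat.of R P) S n,
      (Abelian.Ext.mk₀ (ModuleCat.ofHom (LinearMap.ker q).subtype)).comp y (zero_add n) = x :=
  Abelian.Ext.contravariant_sequence_exact₁ (LinearMap.shortExact_shortComplexKer hq) S x
    (add_comm 1 n) (h.elim _ _)

theorem ext_main {R V : Type} [CommRing R] [AddCommGroup V] [Module R V] [Module.Projective R V]
    (F : ℤ → Submodule R V) (D : V →ₗ[R] V) (hP : ∀ k, ∃ p : V →ₗ[R] F k, ∀ v : F k, p v = v)
    (hD : ∀ k, ∀ v ∈ F (k - 1), D v ∈ F k) (hDD : ∀ v, D (D v) = 0) (l : ℤ) (φ : V →ₗ[R] R)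
    (hφ : ∀ u ∈ F (l - 1), φ (D u) = 0) (n : ℕ) :
    ∀ (k : ℤ) (N : Type) [AddCommGroup N] [Module R N] (q : F k →ₗ[R] N), k - (n + 1) = l →
      Function.Surjective q → (∀ v : F k, q v = 0 ↔ ∃ u ∈ F (k - 1), D u = v) →
      (∀ t, l ≤ t → t ≤ k - 1 → ∀ v ∈ F t, D v = 0 → ∃ u ∈ F (t - 1), D u = v) →
      Subsingleton (Abelian.Ext (ModuleCat.of R N) (ModuleCat.of R R) (n + 1)) →
      ∃ ψ : V →ₗ[R] R, ∀ v ∈ F l, ψ (D v) = φ v := by
  have st : ∀ (k : ℤ) (N : Type) [AddCommGroup N] [Module R N] (q : F k →ₗ[R] N),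
      (∀ v : F k, q v = 0 ↔ ∃ u ∈ F (k - 1), D u = v) →
      ∃ q' : F (k - 1) →ₗ[R] LinearMap.ker q, Function.Surjective q' ∧
        ∀ u, ((q' u : F k) : V) = D u := fun k N _ _ q hk => by
    refine ⟨(D.restrict (hD k)).codRestrict _ fun u => (hk _).2 ⟨u, u.2, rfl⟩, fun v => ?_,
      fun u => rfl⟩
    obtain ⟨u, hu, e⟩ := (hk v).1 v.2
    exact ⟨⟨u, hu⟩, Subtype.ext (Subtype.ext e)⟩
  induction n with
  | zero =>
    intro k N _ _ q hl hq hk hE hS
    obtain rfl : l = k - 1 := by omega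
    obtain ⟨q', s', e'⟩ := st k N q hk
    obtain ⟨p, hp⟩ := hP k
    have h0 : LinearMap.ker q' ≤ LinearMap.ker (φ ∘ₗ (F (k - 1)).subtype) := fun u hu => by
      obtain ⟨w, hw, e⟩ := hE _ le_rfl le_rfl u u.2 (by rw [← e', LinearMap.mem_ker.1 hu]; rfl)
      exact (congrArg φ e).symm.trans (hφ w hw)
    obtain ⟨y, hy⟩ := ext_lift q hq _ 0 hS (Abelian.Ext.mk₀ (ModuleCat.ofHom
      ((LinearMap.ker q').liftQ _ h0 ∘ₗ (q'.quotKerEquivOfSurjective s').symm.toLinearMap)))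
    obtain ⟨y, rfl⟩ := (Abelian.Ext.mk₀_bijective _ _).2 y
    rw [Abelian.Ext.mk₀_comp_mk₀] at hy
    have h1 := congrArg ModuleCat.Hom.hom ((Abelian.Ext.mk₀_bijective _ _).1 hy)
    refine ⟨y.hom ∘ₗ p, fun v hv => ?_⟩
    have h2 := LinearMap.congr_fun h1 (q' ⟨v, hv⟩)
    rw [LinearMap.comp_apply, ← e' ⟨v, hv⟩, hp]
    simpa using h2
  | succ n ih =>
    intro k N _ _ q hl hq hk hE hS
    obtain ⟨q', s', e'⟩ := st k N q hk
    obtain ⟨p, hp⟩ := hP k
    have : Module.Projective R (F k) := .of_split (F k).subtype p (LinearMap.ext hp)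
    refine ih (k - 1) _ q' (by push_cast at hl; omega) s' (fun u => ⟨fun hu => ?_, ?_⟩)
      (fun t a b => hE t a (by omega)) (subsingleton_of_forall_eq 0 fun x => ?_)
    · exact hE _ (by omega) le_rfl u u.2 (by rw [← e', hu]; rfl)
    · rintro ⟨w, -, e⟩
      exact Subtype.ext (Subtype.ext (by rw [e', ← e]; exact hDD w))
    · obtain ⟨y, rfl⟩ := ext_lift q hq _ _ hS x
      rw [y.eq_zero_of_projective, Abelian.Ext.comp_zero]

theorem p_EXT :
    S_EXT := by
  intro σ M _ _ I _ c d m j hd hdd hm hs hk hE hj hS y hy h0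
  classical
  obtain ⟨n, rfl⟩ : ∃ n, j = n + 1 := ⟨j - 1, by omega⟩
  obtain ⟨ψ, hψ⟩ := ext_main (Fv c) d.mulVecLin
    (fun k => ⟨⟨⟨fun v => ⟨cut c k v, supp_cut _ _ _⟩, fun v w => Subtype.ext <| funext fun a => by
        by_cases h : c a = k <;> simp [cut, h]⟩, fun f v => Subtype.ext <| funext fun a => by
        by_cases h : c a = k <;> simp [cut, h]⟩, fun v => Subtype.ext (Supp.cut v.2)⟩)
    (fun k v hv => hd.mulVec hv (by omega))
    (fun v => by simp [hdd]) (-(n + 1 : ℕ)) (dotProductBilin (Pol σ) (Pol σ) y)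
    (fun u _ => by simp [dotProduct_mulVec, ← mulVec_transpose, h0]) n 0 M
    (Fintype.linearCombination (Pol σ) m ∘ₗ (Fv c 0).subtype) (by push_cast; ring)
    (fun x => by
      obtain ⟨v, rfl⟩ := (Submodule.mem_span_range_iff_exists_fun _).1
        (hs ▸ Submodule.mem_top (x := x))
      refine ⟨⟨cut c 0 v, supp_cut _ _ _⟩, Finset.sum_congr rfl fun a _ => ?_⟩
      by_cases h : c a = 0
      · simp [cut, h]
      · simp [hm a h])
    (fun v => hk v v.2) (fun t a b => hE t a b) hS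
  refine ⟨cut (fun a => - c a) _ fun a => ψ fun j => if a = j then 1 else 0, supp_cut _ _ _, ?_⟩
  rw [hd.transpose.mulVec_cut _ (sub_add_cancel _ 1), ← hy.cut]
  funext b
  simp only [cut]
  split_ifs with h
  · have h1 := hψ (Pi.single b 1) fun a ha => by
      obtain rfl : a = b := by_contra fun g => ha (Pi.single_eq_of_ne g _)
      omega
    rw [LinearMap.pi_apply_eq_sum_univ] at h1
    simpa [mulVec, dotProduct, Pi.single_apply] using h1
  · rfl

end Pool.Agent.P.MP_b01859_ag.SG
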