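import Pool.Agent.P.MP_b01859_ag.SG.Iface

/-! Step GAUSS. -/

set_option autoImplicit false
set_option linter.unusedSectionVars false

namespace Pool.Agent.P.MP_b01859_ag.SG

open MvPolynomial Matrix CategoryTheory RingTheory.Sequence

section

variable {σ I I' : Type} [Fintype I] [DecidableEq I] [Fintype I'] [DecidableEq I']

theorem gauss_cx {c g : I → ℤ} {c' g' : I' → ℤ} {d H : Matrix I I (Pol σ)}
    {F : Matrix I I' (Pol σ)} {G : Matrix I' I (Pol σ)} (hd : Cx c g d)
    (hFG : F * G = 1 - d * H - H * d) (dF : Deg c c' 0 F) (dG : Deg c' c 0 G)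
    (mF : Hom g g' F) (mG : Hom g' g G) : Cx c' g' (G * d * F) := by
  refine ⟨(dG.mul hd.deg (zero_add 1)).mul dF (add_zero 1), (mG.mul hd.hom).mul mF, ?_⟩
  have h1 : d * (F * G) * d = 0 := by
    rw [hFG, Matrix.mul_sub, Matrix.mul_sub, Matrix.mul_one, ← Matrix.mul_assoc d d, hd.sq,
      Matrix.zero_mul, sub_zero, Matrix.sub_mul, hd.sq, Matrix.mul_assoc, Matrix.mul_assoc, hd.sq]
    simp
  calc G * d * F * (G * d * F) = G * (d * (F * G) * d) * F := by simp only [Matrix.mul_assoc]
    _ = 0 := by rw [h1]; simp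

theorem gauss_ls {c : I → ℤ} {c' : I' → ℤ} {d H : Matrix I I (Pol σ)}
    {F : Matrix I I' (Pol σ)} {G : Matrix I' I (Pol σ)} (hd : d * d = 0) (hH : H * d * H = H)
    (hFG : F * G = 1 - d * H - H * d) (hGF : G * F = 1) (dF : Deg c c' 0 F) (dG : Deg c' c 0 G)
    {f : Pol σ} {ι : Matrix I (Fin 2) (Pol σ)} {π : Matrix (Fin 2) I (Pol σ)}
    {h : Matrix I I (Pol σ)} (L : LS c d f ι π h) :
    LS c' (G * d * F) f (G * ι) (π * F) (G * h * F) := by
  have e1 : d * (F * G) = d - d * H * d := by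
    rw [hFG, Matrix.mul_sub, Matrix.mul_sub, Matrix.mul_one, ← Matrix.mul_assoc d d, hd,
      Matrix.zero_mul, sub_zero, Matrix.mul_assoc]
  have e2 : F * G * d = d - d * H * d := by
    rw [hFG, Matrix.sub_mul, Matrix.sub_mul, Matrix.one_mul, Matrix.mul_assoc H d d, hd,
      Matrix.mul_zero, sub_zero]
  have e3 : F * G * (d * H * d) = 0 := by
    rw [← Matrix.mul_assoc, ← Matrix.mul_assoc, e2, Matrix.sub_mul, Matrix.mul_assoc d H d,
      Matrix.mul_assoc d (H * d) H, hH, sub_self, Matrix.zero_mul]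
  have e4 : d * H * d * (F * G) = 0 := by
    rw [Matrix.mul_assoc, e1, Matrix.mul_sub, ← Matrix.mul_assoc, ← Matrix.mul_assoc,
      Matrix.mul_assoc d H d, Matrix.mul_assoc d (H * d) H, hH, Matrix.mul_assoc, sub_self]
  have e5 : G * (d * H * d) = 0 := by
    calc G * (d * H * d) = G * F * G * (d * H * d) := by rw [hGF, Matrix.one_mul]
      _ = G * (F * G * (d * H * d)) := by simp only [Matrix.mul_assoc]
      _ = 0 := by rw [e3, Matrix.mul_zero]
  have e6 : d * H * d * F = 0 := by
    calc d * H * d * F = d * H * d * F * (G * F) := by rw [hGF, Matrix.mul_one]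
      _ = d * H * d * (F * G) * F := by simp only [Matrix.mul_assoc]
      _ = 0 := by rw [e4, Matrix.zero_mul]
  refine ⟨dG.mul L.ι0 (add_zero 0), L.π0.mul dF (add_zero 0),
    (dG.mul L.h0 (zero_add _)).mul dF (add_zero _), ?_, ?_, ?_, ?_⟩
  · calc G * d * F * (G * ι) = G * (d * (F * G) * ι) := by simp only [Matrix.mul_assoc]
      _ = 0 := by
        rw [e1, Matrix.sub_mul, Matrix.mul_assoc _ d ι, L.dι]; simp
  · calc π * F * (G * d * F) = π * (F * G * d) * F := by simp only [Matrix.mul_assoc]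
      _ = 0 := by
        rw [e2, Matrix.mul_sub, ← Matrix.mul_assoc, ← Matrix.mul_assoc, L.πd]; simp
  · calc π * F * (G * ι) = π * (F * G) * ι := by simp only [Matrix.mul_assoc]
      _ = π * ι := by
        rw [hFG, Matrix.mul_sub, Matrix.mul_sub, Matrix.mul_one, ← Matrix.mul_assoc π d, L.πd,
          Matrix.zero_mul, sub_zero, Matrix.sub_mul, Matrix.mul_assoc, Matrix.mul_assoc, L.dι]
        simp
      _ = _ := L.πι
  · have a1 : G * d * F * (G * h * F) = G * (d * h) * F := by
      calc G * d * F * (G * h * F) = G * (d * (F * G)) * h * F := by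
            simp only [Matrix.mul_assoc]
        _ = _ := by rw [e1, Matrix.mul_sub, e5, sub_zero, Matrix.mul_assoc G d h]
    have a2 : G * h * F * (G * d * F) = G * (h * d) * F := by
      calc G * h * F * (G * d * F) = G * h * (F * G * d * F) := by
            simp only [Matrix.mul_assoc]
        _ = _ := by
          rw [e2, Matrix.sub_mul, e6, sub_zero]; simp only [Matrix.mul_assoc]
    have a3 : G * ι * (π * F) = G * (ι * π) * F := by simp only [Matrix.mul_assoc]
    rw [a1, a2, a3, ← Matrix.add_mul, ← Matrix.add_mul, ← Matrix.mul_add, ← Matrix.mul_add, L.sum,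
      Matrix.mul_smul, Matrix.smul_mul, Matrix.mul_one, hGF]

/-- The inclusion of a set of indices. -/
noncomputable def gauss_inc (σ : Type) (P : I → Prop) : Matrix I {a // P a} (Pol σ) :=
  Matrix.of fun a a' => if a = a'.1 then 1 else 0

theorem gauss_inc_apply (P : I → Prop) (a : I) (a' : {a // P a}) :
    gauss_inc σ P a a' = if a = a'.1 then 1 else 0 := rfl

theorem gauss_inc1 (P : I → Prop) [DecidablePred P] :
    (gauss_inc σ P)ᵀ * gauss_inc σ P = 1 := by
  ext1 a b
  simp only [mul_apply, transpose_apply, gauss_inc_apply, one_apply, Subtype.ext_iff, ite_mul,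
    one_mul, zero_mul, Finset.sum_ite_eq', Finset.mem_univ, if_true]

theorem gauss_inc2 (P : I → Prop) [DecidablePred P] (a b : I) :
    (gauss_inc σ P * (gauss_inc σ P)ᵀ) a b = if P a ∧ a = b then 1 else 0 := by
  simp only [mul_apply, transpose_apply, gauss_inc_apply]
  by_cases ha : P a
  · rw [Finset.sum_eq_single ⟨a, ha⟩ (fun x _ hx => by
      rw [if_neg fun e => hx (Subtype.ext e.symm), zero_mul]) (by simp)]
    simp [ha, eq_comm]
  · rw [if_neg fun e => ha e.1]
    exact Finset.sum_eq_zero fun x _ => by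
      rw [if_neg fun e : a = x.1 => ha (e ▸ x.2), zero_mul]

theorem gauss_eq_C {f : Pol σ} (hf : IsWeightedHomogeneous (fun _ => (1 : ℤ)) f 0) :
    f = C (coeff 0 f) := by
  rw [← monomial_zero']
  apply eq_monomial_of_support_subset_singleton
  intro m hm
  have h1 := hf (MvPolynomial.mem_support_iff.mp hm)
  rw [Finsupp.weight_apply, Finsupp.sum,
    Finset.sum_eq_zero_iff_of_nonneg fun i _ => nsmul_nonneg zero_le_one _] at h1
  ext i
  by_contra h
  have := h1 i (Finsupp.mem_support_iff.2 h)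
  exact h (by simpa using this)

theorem gauss_step {c g : I → ℤ} {d : Matrix I I (Pol σ)} (hd : Cx c g d) {a b : I}
    (h0 : constantCoeff (d a b) ≠ 0) :
    ∃ (H : Matrix I I (Pol σ)) (F : Matrix I {x // x ≠ a ∧ x ≠ b} (Pol σ))
      (G : Matrix {x // x ≠ a ∧ x ≠ b} I (Pol σ)), H * d * H = H ∧
      F * G = 1 - d * H - H * d ∧ G * F = 1 ∧ Deg c (fun x => c x.1) 0 F ∧
      Deg (fun x => c x.1) c 0 G ∧ Hom g (fun x => g x.1) F ∧ Hom (fun x => g x.1) g G := by
  have hne : d a b ≠ 0 := fun e => h0 (by rw [e, map_zero])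
  have hc : c a = c b + 1 := hd.deg a b hne
  have hab : a ≠ b := fun e => by rw [e] at hc; omega
  have hg : g b - g a = 0 := by
    have h1 : IsWeightedHomogeneous (fun _ => (1 : ℤ)) (d a b) (g b - g a) := hd.hom a b
    have := h1 (d := 0) h0
    rw [← this, map_zero]
  have hL : d a b = C (constantCoeff (d a b)) :=
    gauss_eq_C (hg ▸ hd.hom a b)
  obtain ⟨μ, hμ, m1, m2⟩ : ∃ μ : Pol σ, IsWeightedHomogeneous (fun _ => (1 : ℤ)) μ 0 ∧
      μ * d a b = 1 ∧ d a b * μ = 1 := by
    refine ⟨C (constantCoeff (d a b))⁻¹, isWeightedHomogeneous_C _ _, ?_, ?_⟩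
    · conv_lhs => rw [hL]
      rw [constantCoeff_C, ← C_mul, inv_mul_cancel₀ h0, C_1]
    · conv_lhs => rw [hL]
      rw [constantCoeff_C, ← C_mul, mul_inv_cancel₀ h0, C_1]
  obtain ⟨H, hH⟩ : ∃ H : Matrix I I (Pol σ), H = single b a μ := ⟨_, rfl⟩
  have dH : Deg c c (-1) H := by
    intro x y h
    rw [hH, single, of_apply] at h
    by_cases e : b = x ∧ a = y
    · rw [← e.1, ← e.2]; omega
    · exact absurd (if_neg e) h
  have mH : Hom g g H := by
    intro x y
    rw [hH, single, of_apply]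
    by_cases e : b = x ∧ a = y
    · rw [if_pos e, ← e.1, ← e.2, show g a - g b = 0 by omega]; exact hμ
    · rw [if_neg e]; exact isWeightedHomogeneous_zero ℂ _ _
  have HdH : H * d * H = H := by rw [hH, single_mul_mul_single, m1, one_mul]
  have HH : H * H = 0 := by rw [hH]; exact single_mul_single_of_ne _ _ _ _ hab _
  obtain ⟨e, he⟩ : ∃ e : Matrix I I (Pol σ), e = 1 - d * H - H * d := ⟨_, rfl⟩
  have de : Deg c c 0 e :=
    he ▸ (Deg.one.sub (hd.deg.mul dH (by norm_num))).sub (dH.mul hd.deg (by norm_num))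
  have me : Hom g g e := he ▸ (Hom.one.sub (hd.hom.mul mH)).sub (mH.mul hd.hom)
  have eH : e * H = 0 := by
    rw [he, Matrix.sub_mul, Matrix.sub_mul, Matrix.one_mul, Matrix.mul_assoc d H H, HH, HdH]
    simp
  have He : H * e = 0 := by
    rw [he, Matrix.mul_sub, Matrix.mul_sub, Matrix.mul_one, ← Matrix.mul_assoc, ← Matrix.mul_assoc,
      HH, HdH]
    simp
  have edH : e * (d * H) = 0 := by
    rw [he, Matrix.sub_mul, Matrix.sub_mul, Matrix.one_mul, Matrix.mul_assoc d H,
      ← Matrix.mul_assoc H d H, HdH, Matrix.mul_assoc H d, ← Matrix.mul_assoc d d, hd.sq]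
    simp
  have ee : e * e = e := by
    conv_lhs => rw [show e * e = e * (1 - d * H - H * d) by rw [← he]]
    rw [Matrix.mul_sub, Matrix.mul_sub, Matrix.mul_one, edH, ← Matrix.mul_assoc, eH]
    simp
  obtain ⟨N, hN⟩ : ∃ N, N = gauss_inc σ fun x : I => x ≠ a ∧ x ≠ b := ⟨_, rfl⟩
  have dN : Deg c (fun x : {x // x ≠ a ∧ x ≠ b} => c x.1) 0 N := by
    intro x y h
    rw [hN, gauss_inc_apply] at h
    by_cases e : x = y.1
    · rw [e, add_zero]
    · exact absurd (if_neg e) h
  have dN' : Deg (fun x : {x // x ≠ a ∧ x ≠ b} => c x.1) c 0 Nᵀ := fun x y h => by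
    have := dN y x h
    dsimp only at this ⊢
    omega
  have mN : Hom g (fun x : {x // x ≠ a ∧ x ≠ b} => g x.1) N := by
    intro x y
    rw [hN, gauss_inc_apply]
    by_cases e : x = y.1
    · rw [if_pos e, e, sub_self]; exact isWeightedHomogeneous_one ℂ _
    · rw [if_neg e]; exact isWeightedHomogeneous_zero ℂ _ _
  have mN' : Hom (fun x : {x // x ≠ a ∧ x ≠ b} => g x.1) g Nᵀ := by
    intro y x
    rw [hN, transpose_apply, gauss_inc_apply]
    by_cases e : x = y.1
    · rw [if_pos e, e, sub_self]; exact isWeightedHomogeneous_one ℂ _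
    · rw [if_neg e]; exact isWeightedHomogeneous_zero ℂ _ _
  have HN : H * N = 0 := by
    ext1 x y
    rw [hH, hN, mul_apply, Matrix.zero_apply]
    refine Finset.sum_eq_zero fun z _ => ?_
    rw [gauss_inc_apply, single, of_apply]
    by_cases e : z = y.1
    · rw [if_neg fun q => y.2.1 (by rw [← e, q.2]), zero_mul]
    · rw [if_neg e, mul_zero]
  have NH : Nᵀ * H = 0 := by
    ext1 y x
    rw [hH, hN, mul_apply, Matrix.zero_apply]
    refine Finset.sum_eq_zero fun z _ => ?_
    rw [transpose_apply, gauss_inc_apply, single, of_apply]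
    by_cases e : z = y.1
    · rw [if_neg (c := b = z ∧ a = x) fun q => y.2.2 (by rw [← e, q.1]), mul_zero]
    · rw [if_neg e, zero_mul]
  have NN : N * Nᵀ = 1 - single a b (d a b) * H - H * single a b (d a b) := by
    rw [hH, single_mul_single_same, single_mul_single_same, m1, m2, hN]
    ext1 x y
    rw [gauss_inc2, Matrix.sub_apply, Matrix.sub_apply, one_apply, single, single, of_apply, of_apply]
    by_cases e : x = y
    · subst e
      by_cases e1 : x = a
      · subst e1
        simp [hab.symm]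
      · by_cases e2 : x = b
        · subst e2
          simp [hab]
        · simp [e1, e2, Ne.symm e1, Ne.symm e2]
    · rw [if_neg fun q => e q.2, if_neg e, if_neg fun q => e (q.1.symm.trans q.2),
        if_neg fun q => e (q.1.symm.trans q.2)]
      simp
  refine ⟨H, e * N, Nᵀ * e, HdH, ?_, ?_, de.mul dN (add_zero 0), dN'.mul de (add_zero 0),
    me.mul mN, mN'.mul me⟩
  · calc e * N * (Nᵀ * e) = e * (N * Nᵀ) * e := by simp only [Matrix.mul_assoc]
      _ = e := by
        rw [NN, Matrix.mul_sub, Matrix.mul_sub, Matrix.mul_one, ← Matrix.mul_assoc e H, eH,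
          Matrix.zero_mul, sub_zero, Matrix.sub_mul, ee, Matrix.mul_assoc, Matrix.mul_assoc, He]
        simp
      _ = _ := he
  · calc Nᵀ * e * (e * N) = Nᵀ * (e * e) * N := by simp only [Matrix.mul_assoc]
      _ = Nᵀ * N := by
        rw [ee, he, Matrix.mul_sub, Matrix.mul_sub, Matrix.mul_one, ← Matrix.mul_assoc Nᵀ H, NH,
          Matrix.zero_mul, sub_zero, Matrix.sub_mul, Matrix.mul_assoc, Matrix.mul_assoc, HN]
        simp
      _ = 1 := by rw [hN]; exact gauss_inc1 _

end

theorem p_GAUSS :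
    S_GAUSS := by
  intro σ J gJ lo hi G I _ _
  induction' hn : Fintype.card I using Nat.strong_induction_on with n ih generalizing I
  intro c g d ψ hd hc hψ hψd hp
  by_cases h0 : ∀ a b, constantCoeff (d a b) = 0
  · exact ⟨I, inferInstance, inferInstance, c, g, d, ψ, hd, hc, hψ, hp, h0⟩
  push Not at h0
  obtain ⟨a, b, h0⟩ := h0
  obtain ⟨H, F, G', HdH, hFG, hGF, dF, dG, mF, mG⟩ := gauss_step hd h0
  have hψe : ψ * (F * G') = ψ - ψ * H * d := by
    rw [hFG, Matrix.mul_sub, Matrix.mul_sub, Matrix.mul_one, ← Matrix.mul_assoc ψ d, hψd,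
      Matrix.zero_mul, sub_zero, Matrix.mul_assoc]
  refine ih _ ?_ {x // x ≠ a ∧ x ≠ b} rfl (fun x => c x.1) (fun x => g x.1) (G' * d * F) (ψ * F)
    (gauss_cx hd hFG dF dG mF mG) (fun x => hc x.1) (hψ.mul mF) ?_ fun p hp' => ?_
  · rw [← hn]
    exact Fintype.card_subtype_lt (x := a) fun h => h.1 rfl
  · calc ψ * F * (G' * d * F) = ψ * (F * G') * d * F := by simp only [Matrix.mul_assoc]
      _ = 0 := by
        rw [hψe, Matrix.sub_mul, hψd, Matrix.mul_assoc _ d d, hd.sq]; simp
  · obtain ⟨f, hf, ι, π, h, L, hG⟩ := hp p hp'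
    refine ⟨f, hf, G' * ι, π * F, G' * h * F, gauss_ls hd.sq HdH hFG hGF dF dG L, ?_⟩
    have : ψ * F * (G' * ι) = ψ * ι := by
      calc ψ * F * (G' * ι) = ψ * (F * G') * ι := by simp only [Matrix.mul_assoc]
        _ = _ := by rw [hψe, Matrix.sub_mul, Matrix.mul_assoc _ d ι, L.dι]; simp
    rwa [this]

end Pool.Agent.P.MP_b01859_ag.SG
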