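import Pool.Agent.P.MP_b01859_ag.SG.Iface

/-! Step GL. -/

set_option autoImplicit false

namespace Pool.Agent.P.MP_b01859_ag.SG

open MvPolynomial Matrix CategoryTheory RingTheory.Sequence

theorem gl_con {σ J : Type} [Fintype J] [DecidableEq J] {c : J → ℤ} {d : Matrix J J (Pol σ)}
    {p : Ideal (Pol σ)} {k₀ : ℤ} (hp : p.IsPrime) (hd : Deg c c 1 d) (h2 : d * d = 0)
    (H : ∀ k, k₀ ≤ k → ∀ v, Supp c k v → d *ᵥ v = 0 → ∃ f ∉ p, ∃ u, d *ᵥ u = f • v) :
    ∃ f ∉ p, ∃ h : Matrix J J (Pol σ), Deg c c (-1) h ∧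
      ∀ a b, k₀ ≤ c b → (d * h + h * d) a b = (f • (1 : Matrix J J (Pol σ))) a b := by
  obtain ⟨T, hT⟩ := (Set.finite_range c).bddAbove
  have one : (1 : Pol σ) ∉ p := (Ideal.ne_top_iff_one p).1 hp.ne_top
  suffices ∀ t : ℕ, ∃ f ∉ p, ∃ h : Matrix J J (Pol σ), Deg c c (-1) h ∧ ∀ a b, k₀ ≤ c b → T - t < c b →
      (d * h + h * d) a b = (f • (1 : Matrix J J (Pol σ))) a b by
    obtain ⟨f, hf, h, h3, h4⟩ := this (T + 1 - k₀).toNat
    exact ⟨f, hf, h, h3, fun a b hb => h4 a b hb (by omega)⟩
  intro t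
  induction t with
  | zero => exact ⟨1, one, 0, Deg.zero, fun a b _ hb => absurd (hT ⟨b, rfl⟩) (by omega)⟩
  | succ t ih =>
    obtain ⟨f, hf, h, h3, h4⟩ := ih
    obtain ⟨E, hE⟩ : ∃ E, E = f • (1 : Matrix J J (Pol σ)) - (d * h + h * d) := ⟨_, rfl⟩
    have e0 : Deg c c 0 E := hE ▸ (Deg.one.smul f).sub ((hd.mul h3 rfl).add (h3.mul hd rfl))
    have e1 : ∀ a b, k₀ ≤ c b → T - t < c b → E a b = 0 := fun a b x y => by
      rw [hE, Matrix.sub_apply, h4 a b x y, sub_self]
    have e2 : d * E = E * d := by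
      rw [hE, mul_sub, sub_mul, mul_add, add_mul, ← mul_assoc, h2, mul_assoc h, h2, mul_assoc]
      simp
    have e3 : ∀ b, ∃ f ∉ p, ∃ u, (∀ a, u a ≠ 0 → c a = T - t - 1 ∧ c b = T - t) ∧
        (k₀ ≤ c b → T - t ≤ c b → d *ᵥ u = f • fun a => E a b) := fun b => by
      by_cases hb : k₀ ≤ c b ∧ c b = T - t
      · have s : Supp c (T - t) fun a => E a b := fun a x => by have := e0 a b x; omega
        obtain ⟨g, hg, u, hu⟩ := H _ (by omega) _ s (funext fun a => by
          change (d * E) a b = 0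
          rw [e2, mul_apply]
          refine Finset.sum_eq_zero fun b' _ => ?_
          by_cases x : d b' b = 0
          · rw [x, mul_zero]
          · have := hd b' b x
            rw [e1 a b' (by omega) (by omega), zero_mul])
        exact ⟨g, hg, cut c (T - t - 1) u, fun a x => ⟨supp_cut _ _ _ a x, hb.2⟩, fun _ _ => by
          rw [hd.mulVec_cut u (sub_add_cancel _ _), hu, (s.smul g).cut]⟩
      · exact ⟨1, one, 0, fun a x => absurd rfl x, fun x y => funext fun a => by
          simp [e1 a b x (by omega)]⟩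
    choose g hg u hu hdu using e3
    choose q hq using fun b => Finset.dvd_prod_of_mem g (Finset.mem_univ b)
    have e4 : ∏ b, g b ∉ p := fun x => by
      obtain ⟨b, -, y⟩ := Ideal.IsPrime.prod_mem_iff.1 x
      exact hg b y
    refine ⟨(∏ b, g b) * f, fun x => (hp.mem_or_mem x).elim e4 hf,
      (∏ b, g b) • h + of fun a b => q b * u b a, (h3.smul _).add fun a b x => ?_,
      fun a b x y => ?_⟩
    · have := hu b a (right_ne_zero_of_mul x)
      omega
    · have a1 : ((of fun a b => q b * u b a) * d) a b = 0 := by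
        rw [mul_apply]
        refine Finset.sum_eq_zero fun b' _ => by_contra fun z => ?_
        have := hd b' b (right_ne_zero_of_mul z)
        have := hu b' a (right_ne_zero_of_mul (left_ne_zero_of_mul z))
        omega
      have a2 : (d * of fun a b => q b * u b a) a b = (∏ b, g b) * E a b := by
        have := congrFun (hdu b x (by omega)) a
        simp only [mulVec, dotProduct, Pi.smul_apply, smul_eq_mul] at this
        rw [hq b, mul_comm (g b), mul_assoc, ← this, mul_apply, Finset.mul_sum]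
        exact Finset.sum_congr rfl fun _ _ => by rw [of_apply]; ring
      simp only [mul_add, add_mul, Matrix.add_apply, a1, a2, hE, Matrix.mul_smul, Matrix.smul_mul,
        Matrix.smul_apply, Matrix.sub_apply, smul_eq_mul]
      ring

theorem p_GL :
    S_GL := by
  intro σ I _ _ c d ι p k₀ hp hk hd h2 hι h3 H H'
  obtain ⟨f, hf, h, h4, h5⟩ := gl_con (c := Sum.elim (fun _ => -1) c) (d := fromBlocks 0 0 ι d)
    (k₀ := k₀) hp (by
      rintro (a | a) (b | b) x
      · exact absurd rfl x
      · exact absurd rfl x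
      · exact hι a b x
      · exact hd a b x) (by simp [fromBlocks_multiply, h2, h3]) fun k x v hv h0 => by
      rw [fromBlocks_mulVec] at h0
      have e1 : d *ᵥ (v ∘ Sum.inr) + ι *ᵥ (v ∘ Sum.inl) = 0 :=
        (add_comm _ _).trans (funext fun a => congrFun h0 (Sum.inr a))
      have e2 : Supp c k (v ∘ Sum.inr) := fun a y => hv _ y
      have e3 : v ∘ Sum.inl = 0 := by
        by_cases y : k = -1
        · exact H' _ _ (y ▸ e2) e1
        · exact funext fun j => by_contra fun z => y (hv _ z).symm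
      rw [e3, mulVec_zero, add_zero] at e1
      obtain ⟨g, hg, u, y, e4⟩ := H k x _ e2 e1
      refine ⟨g, hg, Sum.elim y u, ?_⟩
      rw [fromBlocks_mulVec]
      funext a
      rcases a with a | a
      · simpa using Or.inr (congrFun e3 a)
      · simpa [add_comm] using congrFun e4 a
  rw [← fromBlocks_toBlocks h, fromBlocks_multiply, fromBlocks_multiply] at h5
  have e1 : Deg (fun _ => 0) c 0 h.toBlocks₁₂ := fun a b x => by
    have : -1 = c b + -1 := h4 (Sum.inl a) (Sum.inr b) x
    change 0 = _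
    omega
  refine ⟨f, hf, h.toBlocks₁₂, h.toBlocks₂₂, hι, e1, fun a b x => h4 (Sum.inr a) (Sum.inr b) x, h3,
    Matrix.ext fun a b => by_contra fun x => x ?_, Matrix.ext fun a b => ?_, fun a b x => ?_⟩
  · have := e1.mul hd rfl a b x
    simpa using h5 (Sum.inl a) (Sum.inr b) (by dsimp only [Sum.elim_inr] at this ⊢; omega)
  · simpa [one_apply] using h5 (Sum.inl a) (Sum.inl b) hk
  · simpa [one_apply] using h5 (Sum.inr a) (Sum.inr b) x

end Pool.Agent.P.MP_b01859_ag.SG
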