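import Pool.Agent.P.MP_b01859_ag.SG.Iface

/-! Step QLS. -/

set_option autoImplicit false

namespace Pool.Agent.P.MP_b01859_ag.SG

open MvPolynomial Matrix CategoryTheory RingTheory.Sequence

/-- The transposed contraction identity on vectors of degree at most `j`. -/
theorem qls_tr {σ J : Type} [Fintype J] [DecidableEq J] {c : J → ℤ} {d : Matrix J J (Pol σ)}
    {j k : ℤ} {f : Pol σ} {ι : Matrix J (Fin 2) (Pol σ)} {π : Matrix (Fin 2) J (Pol σ)}
    {h : Matrix J J (Pol σ)} (hd : Deg c c 1 d) (L : LSr c d (-j) f ι π h) {w : J → Pol σ}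
    (hw : Supp (fun a => - c a) k w) (hk : k ≤ j) :
    πᵀ *ᵥ (ιᵀ *ᵥ w) + hᵀ *ᵥ (dᵀ *ᵥ w) + dᵀ *ᵥ (hᵀ *ᵥ w) = f • w := by
  have e : πᵀ *ᵥ (ιᵀ *ᵥ w) + hᵀ *ᵥ (dᵀ *ᵥ w) + dᵀ *ᵥ (hᵀ *ᵥ w) =
      (ι * π + d * h + h * d)ᵀ *ᵥ w := by
    simp only [mulVec_mulVec, transpose_add, transpose_mul, add_mulVec]
  have dg : Deg c c 0 (ι * π + d * h + h * d) :=
    ((L.ι0.mul L.π0 rfl).add (hd.mul L.h0 rfl)).add (L.h0.mul hd rfl)
  have s := dg.transpose.mulVec hw (add_zero k)
  rw [e]
  funext b
  by_cases hb : -j ≤ c b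
  · have : ((ι * π + d * h + h * d)ᵀ *ᵥ w) b = ((f • (1 : Matrix J J (Pol σ)))ᵀ *ᵥ w) b :=
      Finset.sum_congr rfl fun a _ => congrArg (· * w a) (L.sum a b hb)
    rw [this, transpose_smul, transpose_one, smul_mulVec, one_mulVec]
  · have h1 : w b = 0 := by
      by_contra h2
      have := hw b h2
      dsimp only at this
      omega
    rw [Pi.smul_apply, h1, smul_zero]
    by_contra h2
    have := s b h2
    dsimp only at this
    omega

theorem p_QLS (hGL : S_GL) (hTOWER : S_TOWER) :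
    S_QLS := by
  intro σ _ J _ _ c g d j hC hc hj hN hE
  obtain ⟨t, ht⟩ : ∃ t, Fintype.card σ = t + 2 := ⟨Fintype.card σ - 2, by omega⟩
  obtain ⟨K, _, c0, gK, ψ, δ, C, bd, ex, lst⟩ :=
    hTOWER σ J (fun a => - c a) (fun a => - g a) dᵀ (j - 1) t hC.transpose
  classical
  have lst := lst ht.le (by rwa [sub_add_cancel])
  have sq := C.sq
  rw [fromBlocks_multiply, ← fromBlocks_zero, fromBlocks_inj] at sq
  have s1 : dᵀ * ψ + ψ * δ = 0 := sq.2.1
  have s2 : δ * δ = 0 := by simpa using sq.2.2.2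
  have dψ : Deg (fun a => - c a) (fun e => c0 e + 1) 0 ψ := fun a e h => by
    simpa using C.deg (.inl a) (.inr e) h
  have dδ : Deg (fun e => c0 e + 1) (fun e => c0 e + 1) 1 δ := fun a e h => by
    simpa using C.deg (.inr a) (.inr e) h
  have cm : ∀ v, dᵀ *ᵥ (ψ *ᵥ v) + ψ *ᵥ (δ *ᵥ v) = 0 := fun v => by
    rw [mulVec_mulVec, mulVec_mulVec, ← add_mulVec, s1, zero_mulVec]
  have neg : ∀ (k : ℤ) (y : J → Pol σ), k < 0 → Supp (fun a => - c a) k y → y = 0 :=
    fun k y hk hy => hy.eq_zero fun a => by have := hc a; omega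
  have EX : ∀ k : ℤ, k ≤ j - 1 → ∀ y q, Supp (fun a => - c a) k y →
      Supp (fun e => c0 e + 1) (k + 1) q → dᵀ *ᵥ y + ψ *ᵥ q = 0 → δ *ᵥ q = 0 →
      ∃ q', Supp (fun e => c0 e + 1) k q' ∧ ψ *ᵥ q' = y ∧ δ *ᵥ q' = q := by
    intro k hk y q hy hq h1 h2
    have hq' : Supp c0 k q := fun e h => by simpa using hq e h
    by_cases h : (j : ℤ) - 1 - t < k
    · obtain ⟨q', a1, a2⟩ := ex k h hk y q hy hq' h1 h2
      exact ⟨q', fun e h => by have := a1 e h; dsimp only; omega, a2⟩
    · obtain rfl := neg k y (by omega) hy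
      rw [mulVec_zero, zero_add] at h1
      obtain rfl : q = 0 := by
        by_cases h3 : k = (j : ℤ) - 1 - t
        · exact lst q (h3 ▸ hq') h1 h2
        · exact hq'.eq_zero fun e => by have := bd e; omega
      exact ⟨0, Supp.zero, mulVec_zero _, mulVec_zero _⟩
  refine ⟨K, inferInstance, inferInstance, fun e => c0 e + 1, gK, δ,
    of fun a e => if c a = 0 then ψ a e else 0, ⟨dδ, fun a e => C.hom (.inr a) (.inr e), s2⟩,
    fun e => by have := bd e; dsimp only; omega, fun a e => ?_, ?_, fun p hp f hf ι π h L => ?_⟩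
  · rw [of_apply]
    split_ifs
    · exact C.hom (.inl a) (.inr e)
    · exact isWeightedHomogeneous_zero ℂ _ _
  · ext1 a e
    by_cases h : c a = 0
    · have h1 : (dᵀ * ψ) a e = 0 := Finset.sum_eq_zero fun b _ => by
        have : d b a = 0 := by
          by_contra h2
          have := hC.deg b a h2
          have := hc b
          omega
        exact mul_eq_zero_of_left this _
      have h2 := congrFun (congrFun s1 a) e
      rw [Matrix.add_apply, h1, zero_add] at h2
      simpa only [Matrix.mul_apply, of_apply, if_pos h] using h2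
    · simp [Matrix.mul_apply, h]
  · choose q q1 q2 q3 using fun i : Fin 2 => EX 0 (by omega) (fun a => π i a) 0
      (fun a h => by simpa using (L.π0 i a h).symm) Supp.zero
      (by
        rw [mulVec_zero, add_zero, mulVec_transpose]
        exact congrFun L.πd i) (mulVec_zero _)
    obtain ⟨ι', hι⟩ : ∃ ι' : Matrix K (Fin 2) (Pol σ), ∀ e i, ι' e i = q i e :=
      ⟨of fun e i => q i e, fun _ _ => rfl⟩
    have i1 : ψ * ι' = πᵀ := by
      ext1 a i
      simp only [Matrix.mul_apply, hι]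
      exact congrFun (q2 i) a
    have i2 : δ * ι' = 0 := by
      ext1 a i
      simp only [Matrix.mul_apply, hι]
      exact congrFun (q3 i) a
    have i3 : Deg (fun e => c0 e + 1) (fun _ => 0) 0 ι' := fun e i h => by
      simpa using q1 i e (by rwa [hι] at h)
    obtain ⟨f', hf', π', h', L'⟩ := hGL σ K (fun e => c0 e + 1) δ ι' p ((j : ℤ) - 1 - t) hp
      (by omega) dδ s2 i3 i2
      (fun k _ v hv h0 => by
        refine ⟨f, hf, ?_⟩
        by_cases hk : k ≤ j
        · have hw := dψ.mulVec hv (add_zero k)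
          have w0 : dᵀ *ᵥ (ψ *ᵥ v) = 0 := by simpa [h0] using cm v
          have id := qls_tr hC.deg L hw hk
          have hy : Supp (fun _ => 0) k (ιᵀ *ᵥ (ψ *ᵥ v)) := fun i h => by
            simpa using L.ι0.transpose.mulVec hw (add_zero k) i h
          obtain ⟨u, -, -, hu⟩ := EX (k - 1) (by omega) (-(hᵀ *ᵥ (ψ *ᵥ v)))
            (f • v - ι' *ᵥ (ιᵀ *ᵥ (ψ *ᵥ v))) (L.h0.transpose.mulVec hw rfl).neg
            (by rw [sub_add_cancel]; exact (hv.smul f).sub (i3.mulVec hy (add_zero k)))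
            (by
              rw [w0, mulVec_zero, add_zero] at id
              rw [mulVec_neg, mulVec_sub, mulVec_smul, mulVec_mulVec _ ψ ι', i1, ← id]
              abel)
            (by
              rw [mulVec_sub, mulVec_smul, h0, mulVec_mulVec _ δ ι', i2, zero_mulVec, smul_zero,
                sub_zero])
          exact ⟨u, _, by rw [hu, sub_add_cancel]⟩
        · obtain rfl : v = 0 := hv.eq_zero fun e => by have := bd e; omega
          exact ⟨0, 0, by simp⟩)
      (fun u y hu h0 => by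
        have u0 : ψ *ᵥ u = 0 := neg (-1) _ (by omega) (dψ.mulVec hu (add_zero _))
        have u1 : ψ *ᵥ (δ *ᵥ u) = 0 := by simpa only [u0, mulVec_zero, zero_add] using cm u
        have u2 := congrArg (fun v => ιᵀ *ᵥ (ψ *ᵥ v)) h0
        simp only [mulVec_add, u1, zero_add, mulVec_zero] at u2
        rw [mulVec_mulVec _ ψ ι', i1, mulVec_mulVec, ← transpose_mul, L.πι, transpose_smul,
          transpose_one, smul_mulVec, one_mulVec] at u2
        funext i
        exact (mul_eq_zero.1 (congrFun u2 i)).resolve_left (Off.ne_zero hf))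
    refine ⟨f', hf', ι', π', h', ⟨L'.ι0, L'.π0, L'.h0, L'.dι, L'.πd, L'.πι, ?_⟩, ?_⟩
    · ext1 a b
      exact L'.sum a b (by have := bd b; omega)
    · ext1 a i
      by_cases h : c a = 0
      · simpa only [Matrix.mul_apply, of_apply, if_pos h] using congrFun (congrFun i1 a) i
      · have : π i a = 0 := by
          by_contra h2
          exact h (by simpa using (L.π0 i a h2).symm)
        simp [Matrix.mul_apply, h, this]

end Pool.Agent.P.MP_b01859_ag.SG
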