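import Pool.Agent.P.MP_b01859_ag.SG.Iface

/-! Step RES. -/

set_option autoImplicit false

namespace Pool.Agent.P.MP_b01859_ag.SG

open MvPolynomial Matrix CategoryTheory RingTheory.Sequence

theorem p_RES (hGEN : S_GEN) (hTOWER : S_TOWER) :
    S_RES := by
  intro σ _ M _ _ _ _ _ ℳ hint hX j
  obtain ⟨ι, _, m0, g0, hsp, hm0⟩ := exists_gens (σ := σ) ℳ hint.submodule_iSup_eq_top
  have hN : ∀ v : ι → Pol σ, v ∈ LinearMap.ker (Fintype.linearCombination (Pol σ) m0) ↔
      ∑ a, v a • m0 a = 0 := fun v => by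
    rw [LinearMap.mem_ker, Fintype.linearCombination_apply]
  obtain ⟨K1, _, g1, V, hV, hV1, hV2, -⟩ := hGEN σ ι g0
    (LinearMap.ker (Fintype.linearCombination (Pol σ) m0)) fun v hv t => (hN _).2
      (hgr_of hint.submodule_iSupIndep (w' := fun _ => (1 : ℤ)) hX (AddMonoidHom.id ℤ)
        Function.injective_id (AddMonoidHom.id ℤ) (w := fun _ => (1 : ℤ)) (fun _ => rfl) hm0
        (γ := g0) (fun _ => rfl) v ((hN v).1 hv) t)
  have hA : Cx (Sum.elim (fun _ : ι => (0 : ℤ)) fun _ : K1 => -1) (Sum.elim g0 g1)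
      (fromBlocks 0 V 0 0) := by
    refine ⟨?_, ?_, by simp [fromBlocks_multiply]⟩
    · rintro (a | a) (b | b) h <;> simp_all
    · rintro (a | a) (b | b)
      · exact isWeightedHomogeneous_zero ℂ _ _
      · exact hV a b
      · exact isWeightedHomogeneous_zero ℂ _ _
      · exact isWeightedHomogeneous_zero ℂ _ _
  obtain ⟨K, _, cK, gK, ψ, δ, hC, hK, hE, -⟩ := hTOWER σ (ι ⊕ K1) _ _ _ (-1) j hA
  refine ⟨(ι ⊕ K1) ⊕ K, inferInstance, _, _, _, Sum.elim (Sum.elim m0 0) 0, hC, ?_, ?_, ?_, ?_,
    fun v hv => ?_, fun k h1 h2 v hv h0 => ?_⟩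
  · rintro ((a | a) | a)
    · simp
    · simp
    · have := (hK a).2
      simp only [Sum.elim_inr]
      omega
  · rintro ((a | a) | a)
    · exact hm0 a
    · exact Submodule.zero_mem _
    · exact Submodule.zero_mem _
  · rintro ((a | a) | a) h
    · exact absurd rfl h
    · rfl
    · rfl
  · rw [eq_top_iff, ← hsp]
    refine Submodule.span_mono ?_
    rintro _ ⟨a, rfl⟩
    exact ⟨.inl (.inl a), rfl⟩
  · have e : ∑ a, v a • Sum.elim (Sum.elim m0 0) 0 a = ∑ a, v (.inl (.inl a)) • m0 a := by
      simp [Fintype.sum_sum_type]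
    rw [e]
    refine ⟨fun h => ?_, fun ⟨u, hu, h⟩ => ?_⟩
    · obtain ⟨w, hw⟩ := hV2 (fun a => v (.inl (.inl a))) ((hN _).2 h)
      refine ⟨Sum.elim (Sum.elim 0 w) 0, ?_, ?_⟩
      · rintro ((a | a) | a) h <;> simp_all
      · funext a
        rcases a with (a | a) | a
        · simpa [fromBlocks_mulVec] using congrFun hw a
        · have : v (.inl (.inr a)) = 0 := by_contra fun h => by simpa using hv _ h
          simp [fromBlocks_mulVec, this]
        · have : v (.inr a) = 0 := by_contra fun h => by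
            have h1 := hv _ h
            have h2 := (hK a).2
            simp only [Sum.elim_inr] at h1
            omega
          simp [fromBlocks_mulVec, this]
    · have h1 : u ∘ Sum.inr = 0 := funext fun a => by_contra fun h => by
        have h1 := hu _ h
        have h2 := (hK a).2
        simp only [Sum.elim_inr] at h1
        omega
      have h2 := (hN _).1 (hV1 ((u ∘ Sum.inl) ∘ Sum.inr))
      rw [← h2, ← h]
      refine Finset.sum_congr rfl fun a _ => ?_
      simp [fromBlocks_mulVec, h1]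
  · rw [fromBlocks_mulVec] at h0
    obtain ⟨q, hq, e1, e2⟩ := hE k (by omega) h2 (v ∘ Sum.inl) (v ∘ Sum.inr)
      (fun a h => hv (.inl a) h) (fun a h => hv (.inr a) h)
      (funext fun a => congrFun h0 (.inl a))
      (funext fun a => by simpa using congrFun h0 (.inr a))
    refine ⟨Sum.elim 0 q, ?_, ?_⟩
    · rintro (a | a) h
      · exact absurd rfl h
      · exact hq a h
    · funext a
      rcases a with a | a
      · simpa [fromBlocks_mulVec] using congrFun e1 a
      · simpa [fromBlocks_mulVec] using congrFun e2 a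

end Pool.Agent.P.MP_b01859_ag.SG
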