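import Pool.Agent.P.MP_b01859_ag.SG.TDEP
import Pool.Agent.P.MP_b01859_ag.SG.TGL
import Pool.Agent.P.MP_b01859_ag.SG.TGAUSS
import Pool.Agent.P.MP_b01859_ag.SG.TGEN
import Pool.Agent.P.MP_b01859_ag.SG.TKILL
import Pool.Agent.P.MP_b01859_ag.SG.TTOWER
import Pool.Agent.P.MP_b01859_ag.SG.TRES
import Pool.Agent.P.MP_b01859_ag.SG.TEXT
import Pool.Agent.P.MP_b01859_ag.SG.TQLS
import Pool.Agent.P.MP_b01859_ag.SG.TCORE
import Pool.Agent.P.MP_b01859_ag.SG.TEND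
import Pool.Agent.P.MP_b01859_ag.SG.Asm

/-! The splitting criterion. -/

namespace Pool.Agent.P.MP_b01859_ag.SG

theorem single_gap : S_MAIN :=
  assemble p_GL p_GAUSS (p_RES p_GEN (p_TOWER (p_KILL p_GEN))) p_EXT
    (p_QLS p_GL (p_TOWER (p_KILL p_GEN))) (p_END (p_CORE p_DEP))

end Pool.Agent.P.MP_b01859_ag.SG
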