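import Pool.Agent.P.MP_b01859_ag.SG.Iface

/-! Step DEP. -/

set_option autoImplicit false

namespace Pool.Agent.P.MP_b01859_ag.SG

open MvPolynomial Matrix CategoryTheory RingTheory.Sequence

section dep

variable {R : Type} [CommRing R]

/-- Vanishing of the first `r` extension groups. -/
def dep_Dep (m : Ideal R) (r : ℕ) (W : Type) [AddCommGroup W] [Module R W] : Prop :=
  ∀ i < r, Subsingleton (Abelian.Ext (ModuleCat.of R (R ⧸ m)) (ModuleCat.of R W) i)

theorem dep_mono {m : Ideal R} {r s : ℕ} {W : Type} [AddCommGroup W] [Module R W]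
    (h : dep_Dep m r W) (hs : s ≤ r) : dep_Dep m s W := fun i hi => h i (hi.trans_le hs)

theorem dep_weak (m : Ideal R) (rs : List R) : ∀ (W : Type) [AddCommGroup W] [Module R W],
    (∀ r ∈ rs, r ∈ m) → IsWeaklyRegular W rs → dep_Dep m rs.length W := by
  induction rs with
  | nil => intro W _ _ _ _ i hi; simp at hi
  | cons a rs ih =>
    intro W _ _ mem reg i hi
    rw [isWeaklyRegular_cons_iff] at reg
    have ha : a ∈ Module.annihilator R (ModuleCat.of R (R ⧸ m)) := by
      change a ∈ Module.annihilator R (R ⧸ m)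
      rw [Ideal.annihilator_quotient]
      exact mem a List.mem_cons_self
    have ih' := ih (QuotSMulTop a W) (fun r hr => mem r (List.mem_cons_of_mem _ hr)) reg.2
    have reg1 : IsSMulRegular (ModuleCat.of R W) a := reg.1
    match i with
    | 0 =>
      have : Subsingleton ((ModuleCat.of R (R ⧸ m)) →ₗ[R] (ModuleCat.of R W)) :=
        IsSMulRegular.linearMap_subsingleton_of_mem_annihilator reg1 ha
      exact (Abelian.Ext.addEquiv₀.trans ModuleCat.homAddEquiv).subsingleton
    | i + 1 =>
      have h0 := ih' i (by simpa using hi)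
      refine subsingleton_of_forall_eq 0 fun x => ?_
      have hz := congrArg (fun φ => φ x)
        (Abelian.Ext.postcomp_smul_id_eq_zero_of_mem_annihilator (M := ModuleCat.of R W) ha (i + 1))
      obtain ⟨y, hy⟩ := Abelian.Ext.covariant_sequence_exact₁ (ModuleCat.of R (R ⧸ m))
        reg1.smulShortComplex_shortExact x hz (n₀ := i) rfl
      have : y = 0 := @Subsingleton.elim _ h0 _ _
      rw [← hy, this]
      exact Abelian.Ext.zero_comp _ _ _ _ _

theorem dep_ses {m : Ideal R} {r : ℕ} {A B C : Type} [AddCommGroup A] [Module R A]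
    [AddCommGroup B] [Module R B] [AddCommGroup C] [Module R C] (f : A →ₗ[R] B) (g : B →ₗ[R] C)
    (he : Function.Exact f g) (hf : Function.Injective f) (hg : Function.Surjective g)
    (hA : dep_Dep m (r + 1) A) (hB : dep_Dep m r B) : dep_Dep m r C := by
  intro i hi
  let S : ShortComplex (ModuleCat.{0} R) :=
    ModuleCat.shortComplexOfCompEqZero f g he.linearMap_comp_eq_zero
  have hS : S.ShortExact := ModuleCat.shortComplex_shortExact S he hf hg
  refine subsingleton_of_forall_eq 0 fun x => ?_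
  obtain ⟨y, hy⟩ := Abelian.Ext.covariant_sequence_exact₃ (ModuleCat.of R (R ⧸ m)) hS x
    (n₁ := i + 1) rfl (@Subsingleton.elim _ (hA (i + 1) (by omega)) _ _)
  have : y = 0 := @Subsingleton.elim _ (hB i hi) _ _
  rw [← hy, this, Abelian.Ext.zero_comp]

theorem dep_one [IsNoetherianRing R] {m : Ideal R} {W : Type} [AddCommGroup W] [Module R W]
    [Module.Finite R W] (h : dep_Dep m 1 W) {w : W}
    (hw : ∀ p : Ideal R, p.IsPrime → ¬ m ≤ p → ∃ f ∉ p, f • w = 0) : w = 0 := by
  have h0 : Subsingleton (ModuleCat.of R (R ⧸ m) ⟶ ModuleCat.of R W) :=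
    Abelian.Ext.addEquiv₀.subsingleton_congr.mp (h 0 Nat.zero_lt_one)
  have h1 : Subsingleton ((ModuleCat.of R (R ⧸ m)) →ₗ[R] (ModuleCat.of R W)) :=
    ModuleCat.homAddEquiv.symm.subsingleton
  have h2 : Subsingleton ((R ⧸ m) →ₗ[R] W) := h1
  obtain ⟨x, hx, hreg⟩ := IsSMulRegular.subsingleton_linearMap_iff.mp h2
  rw [Ideal.annihilator_quotient] at hx
  have hr : x ∈ (Ideal.torsionOf R W w).radical := by
    rw [Ideal.radical_eq_sInf, Ideal.mem_sInf]
    rintro p ⟨hp1, hp⟩
    by_contra hxp
    obtain ⟨f, hf, hfw⟩ := hw p hp fun e => hxp (e hx)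
    exact hf (hp1 ((Ideal.mem_torsionOf_iff w f).2 hfw))
  obtain ⟨n, hn⟩ := hr
  exact (hreg.pow n).right_eq_zero_of_smul ((Ideal.mem_torsionOf_iff w _).1 hn)

end dep

theorem dep_le {σ : Type} {p : Ideal (Pol σ)} (h : ∀ i, X i ∈ p) :
    RingHom.ker (constantCoeff : Pol σ →+* ℂ) ≤ p := by
  intro f hf
  have : f ∈ Ideal.span (X '' (Set.univ : Set σ) : Set (Pol σ)) := by
    rw [mem_ideal_span_X_image]
    intro d hd
    by_contra hcon
    push Not at hcon
    have : d = 0 := Finsupp.ext fun i => hcon i trivial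
    rw [this, mem_support_iff] at hd
    exact hd hf
  refine (Ideal.span_le.2 ?_) this
  rintro _ ⟨i, -, rfl⟩
  exact h i

theorem dep_xs (σ : Type) [Fintype σ] : IsWeaklyRegular (Pol σ) (xs σ) := by
  classical
  refine ⟨fun i hi => ?_⟩
  rw [isSMulRegular_quotient_iff_mem_of_smul_mem]
  set L := (Finset.univ : Finset σ).toList with hL
  have hi' : i < L.length := by simpa [xs, hL] using hi
  have e1 : (xs σ)[i] = X L[i] := by simp [xs, hL]
  have e2 : (Ideal.ofList ((xs σ).take i) • ⊤ : Submodule (Pol σ) (Pol σ)) =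
      Ideal.span (X '' {s | s ∈ L.take i}) := by
    rw [Ideal.smul_eq_mul, Ideal.mul_top, Ideal.ofList]
    congr 1
    ext f
    simp only [xs, ← hL, ← List.map_take, List.mem_map, Set.mem_ofPred_eq, Set.mem_image]
  have e3 : L[i] ∉ L.take i := by
    intro h
    obtain ⟨j, hj, e⟩ := List.getElem_of_mem h
    rw [List.getElem_take] at e
    have := (Finset.nodup_toList (Finset.univ : Finset σ)).getElem_inj_iff.1 e
    rw [List.length_take] at hj
    omega
  rw [e1, e2]
  intro f hf
  have hf' : X L[i] * f ∈ Ideal.span (X '' {s | s ∈ L.take i} : Set (Pol σ)) := hf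
  show f ∈ Ideal.span (X '' {s | s ∈ L.take i} : Set (Pol σ))
  rw [mem_ideal_span_X_image] at hf' ⊢
  intro d hd
  obtain ⟨s, hs, h⟩ := hf' (Finsupp.single L[i] 1 + d) (by
    rw [mem_support_iff, coeff_X_mul]; exact mem_support_iff.1 hd)
  refine ⟨s, hs, ?_⟩
  have : L[i] ≠ s := fun e => e3 (e ▸ hs)
  simpa [Finsupp.single_apply, this] using h

theorem p_DEP :
    S_DEP := by
  intro σ _ V _ _ _ _ F D l hP hD hDD hbot hex hl
  set m : Ideal (Pol σ) := RingHom.ker (constantCoeff : Pol σ →+* ℂ) with hm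
  have hmax : m.IsMaximal := RingHom.ker_isMaximal_of_surjective _ fun c => ⟨C c, by simp⟩
  have hXm : ∀ i, X i ∈ m := fun i => by simp [hm]
  have hlen : (xs σ).length = Fintype.card σ := by simp [xs]
  have hmem : ∀ r ∈ xs σ, r ∈ m := by
    intro r hr
    obtain ⟨i, -, rfl⟩ := List.mem_map.1 hr
    exact hXm i
  have hF : ∀ k, IsWeaklyRegular (F k) (xs σ) := by
    intro k
    obtain ⟨P, hPk⟩ := hP k
    have : Module.Projective (Pol σ) (F k) :=
      Module.Projective.of_split (F k).subtype P (LinearMap.ext hPk)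
    exact ((TensorProduct.rid (Pol σ) (F k)).isWeaklyRegular_congr _).1
      ((dep_xs σ).isWeaklyRegular_lTensor (M₂ := F k))
  have hoff : ∀ (W : Type) [AddCommGroup W] [Module (Pol σ) W] [Module.Finite (Pol σ) W],
      dep_Dep m 1 W → ∀ w : W, (∀ p : Ideal (Pol σ), Off p → ∃ f ∉ p, f • w = 0) → w = 0 := by
    intro W _ _ _ h w hw
    refine dep_one h fun p hp hmp => hw p ⟨hp, ?_⟩
    by_contra hcon
    push Not at hcon
    exact hmp (dep_le hcon)
  have key : ∀ i : ℕ, ∀ k : ℤ, k = -(l : ℤ) + i → i ≤ l →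
      dep_Dep m (Fintype.card σ - i) (Wq F D k) := by
    intro i
    induction i with
    | zero =>
      intro k hk _
      have hb : Bd F D k = ⊥ := by
        rw [Bd, hbot (k - 1) (by omega), Submodule.map_bot, Submodule.comap_bot,
          Submodule.ker_subtype]
      rw [Nat.sub_zero, ← hlen]
      exact dep_weak m _ _ hmem
        (((Submodule.quotEquivOfEqBot _ hb).isWeaklyRegular_congr _).2 (hF k))
    | succ i ih =>
      intro k hk hi
      have h1 := ih (k - 1) (by omega) (by omega)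
      have hD' : ∀ v ∈ F (k - 1), D v ∈ F k := fun v hv => by simpa using hD (k - 1) v hv
      have hker : Bd F D (k - 1) ≤ LinearMap.ker (D.restrict hD') := by
        rintro v ⟨u, -, hu⟩
        rw [LinearMap.mem_ker]
        apply Subtype.ext
        have hu' : D u = (v : V) := hu
        change D v = 0
        rw [← hu', hDD]
      refine dep_ses ((Bd F D (k - 1)).liftQ (D.restrict hD') hker) (Bd F D k).mkQ ?_ ?_
        (Submodule.mkQ_surjective _) (dep_mono h1 (by omega))
        (dep_mono (dep_weak m _ _ hmem (hF k)) (by omega))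
      · intro v
        rw [Submodule.mkQ_apply, Submodule.Quotient.mk_eq_zero]
        constructor
        · rintro ⟨u, hu, e⟩
          exact ⟨Submodule.Quotient.mk ⟨u, hu⟩, Subtype.ext e⟩
        · rintro ⟨w, e⟩
          obtain ⟨u, rfl⟩ := Submodule.Quotient.mk_surjective _ w
          exact ⟨u, u.2, congrArg Subtype.val e⟩
      · rw [injective_iff_map_eq_zero]
        intro w hw
        obtain ⟨v, rfl⟩ := Submodule.Quotient.mk_surjective _ w
        have hv : D v = 0 := congrArg Subtype.val hw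
        refine hoff _ (dep_mono h1 (by omega)) _ fun p hp => ?_
        obtain ⟨f, hf, u, hu, e⟩ := hex (k - 1) (by omega) v v.2 hv p hp
        refine ⟨f, hf, ?_⟩
        rw [← Submodule.Quotient.mk_smul, Submodule.Quotient.mk_eq_zero]
        exact ⟨u, hu, e⟩
  have h3 : dep_Dep m 3 (Wq F D 0) := dep_mono (key l 0 (by omega) le_rfl) (by omega)
  refine ⟨hoff _ (dep_mono h3 (by omega)), fun J hJ => ?_⟩
  by_cases hT : J • (⊤ : Submodule (Pol σ) (Wq F D 0)) = ⊤
  · exact Or.inl hT
  · right
    have hJt : J ≠ ⊤ := fun e => hT (by rw [e, Submodule.top_smul])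
    obtain ⟨M, hM, hJM⟩ := Ideal.exists_le_maximal J hJt
    have hmM : m = M := hmax.eq_of_le hM.ne_top (dep_le (hJ M hM.isPrime hJM))
    have hsupp : Module.support (Pol σ) (ModuleCat.of (Pol σ) (Pol σ ⧸ m)) =
        PrimeSpectrum.zeroLocus J := by
      change Module.support (Pol σ) (Pol σ ⧸ m) = _
      rw [Module.support_eq_zeroLocus, Ideal.annihilator_quotient]
      ext p
      simp only [PrimeSpectrum.mem_zeroLocus, SetLike.coe_subset_coe]
      exact ⟨fun h => (hJM.trans hmM.ge).trans h, fun h => dep_le (hJ _ p.2 h)⟩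
    obtain ⟨rs, hrs, hmemJ, hreg⟩ := ModuleCat.exists_isRegular_of_exists_subsingleton_ext J 3
      (ModuleCat.of (Pol σ) (Wq F D 0)) (lt_top_iff_ne_top.2 hT) _ hsupp h3
    obtain ⟨z₁, z₂, z₃, rfl⟩ := List.length_eq_three.1 hrs
    exact ⟨z₁, hmemJ _ (by simp), z₂, hmemJ _ (by simp), z₃, hmemJ _ (by simp), hreg.1⟩

end Pool.Agent.P.MP_b01859_ag.SG
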