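import Pool.Agent.P.MP_b01859_ag.SG.Iface

/-! Step END. -/

set_option autoImplicit false

namespace Pool.Agent.P.MP_b01859_ag.SG

open MvPolynomial Matrix CategoryTheory RingTheory.Sequence

lemma end_wt {σ : Type} (m : σ →₀ ℕ) :
    Finsupp.weight (fun _ : σ => (1 : ℤ)) m = (m.degree : ℕ) := by
  simp [Finsupp.weight_apply, Finsupp.degree_apply, Finsupp.sum]

lemma end_pos {σ : Type} {φ : Pol σ} {t : ℤ} (h : IsWeightedHomogeneous (fun _ => (1 : ℤ)) φ t)
    (h0 : φ ≠ 0) (hc : constantCoeff φ = 0) : 0 < t := by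
  obtain ⟨m, hm⟩ := exists_coeff_ne_zero h0
  have h1 := h hm
  rw [end_wt] at h1
  have h2 : m.degree ≠ 0 := fun e => hm (by
    rw [(Finsupp.degree_eq_zero_iff m).1 e]; exact hc)
  omega

lemma end_euler {σ : Type} [Fintype σ] {φ : Pol σ} {t : ℤ}
    (h : IsWeightedHomogeneous (fun _ => (1 : ℤ)) φ t) :
    φ * C (t : ℂ) = ∑ s, X s * pderiv s φ := by
  by_cases h0 : φ = 0
  · simp [h0]
  obtain ⟨m, hm⟩ := exists_coeff_ne_zero h0
  have h1 := h hm
  rw [end_wt] at h1
  have h2 : φ.IsHomogeneous m.degree := fun m' hm' => by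
    have h3 := h hm'
    rw [end_wt, ← h1] at h3
    have h4 : m'.degree = m.degree := by exact_mod_cast h3
    rw [← h4, Finsupp.degree_eq_weight_one]
    rfl
  rw [h2.sum_X_mul_pderiv, ← h1, nsmul_eq_mul, mul_comm]
  simp

theorem p_END (hCORE : S_CORE) :
    S_END := by
  intro σ _ I _ _ c g d lo hi hC hc hn hL h0
  by_contra hd
  obtain ⟨a0, b0, hab⟩ : ∃ a0 b0, d a0 b0 ≠ 0 := by
    by_contra h
    push Not at h
    exact hd (Matrix.ext h)
  have hlo : lo ≤ hi := (hc a0).1.trans (hc a0).2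
  have ha1 : ∀ s, Deg c c 1 (d.map (pderiv s)) := fun s e e' h =>
    hC.deg e e' fun h1 => h (by simp [h1])
  have ha2 : ∀ s, d * d.map (pderiv s) + d.map (pderiv s) * d = 0 := fun s => by
    ext1 e e'
    have h1 := congrArg (fun M : Matrix I I (Pol σ) => pderiv s (M e e')) hC.sq
    simp only [Matrix.mul_apply, map_sum, Derivation.leibniz, smul_eq_mul, Matrix.zero_apply,
      map_zero, Finset.sum_add_distrib] at h1
    simp only [Matrix.add_apply, Matrix.mul_apply, Matrix.map_apply, Matrix.zero_apply]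
    rw [← h1]
    congr 1
    exact Finset.sum_congr rfl fun _ _ => mul_comm _ _
  have hE : ∀ e e', d e e' * C ((g e' : ℂ) - g e) = ∑ s, X s * d.map (pderiv s) e e' :=
    fun e e' => by
      have := end_euler (hC.hom e e')
      rwa [Int.cast_sub] at this
  have hp : ∀ e e', d e e' ≠ 0 → g e < g e' := fun e e' h => by
    have := end_pos (hC.hom e e') h (h0 e e')
    omega
  obtain ⟨h2, κ, hκ⟩ := hCORE σ I c d lo hi (fun e => g e) _ hC.deg hC.sq hlo hc hn hL h0 ha1 ha2 hE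
  have hδ : (g b0 : ℂ) - g a0 ≠ 0 := sub_ne_zero.2 (by exact_mod_cast (hp a0 b0 hab).ne')
  have hg : ∀ e, g e = g a0 ∨ g e = g b0 := fun e => by
    have e1 : ∑ e', (-1 : ℂ) ^ c e' * g e' = g a0 + g b0 :=
      mul_left_cancel₀ hδ (by linear_combination (hκ a0 - hκ b0) / 4)
    have e2 : ((g e : ℂ) - g a0) * (g e - g b0) = 0 := by
      have e3 := hκ e
      have e4 := hκ a0
      simp only [e1] at e3 e4
      linear_combination (e3 - e4) / 4
    rcases mul_eq_zero.1 e2 with h | h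
    · exact .inl (by exact_mod_cast sub_eq_zero.1 h)
    · exact .inr (by exact_mod_cast sub_eq_zero.1 h)
  have hE' : ∀ e e', d e e' * C (-((g b0 : ℂ) - g a0) * c e' - -((g b0 : ℂ) - g a0) * c e) =
      ∑ s, X s * d.map (pderiv s) e e' := fun e e' => by
    rw [← hE]
    by_cases h : d e e' = 0
    · simp [h]
    have e1 := hp e e' h
    have e2 := hp a0 b0 hab
    have e3 : g e = g a0 := by rcases hg e with h | h <;> rcases hg e' with h' | h' <;> omega
    have e4 : g e' = g b0 := by rcases hg e with h | h <;> rcases hg e' with h' | h' <;> omega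
    rw [e3, e4, hC.deg e e' h]
    congr 2
    push_cast
    ring
  obtain ⟨-, κ', hκ'⟩ := hCORE σ I c d lo hi (fun e => -((g b0 : ℂ) - g a0) * c e) _ hC.deg hC.sq
    hlo hc hn hL h0 ha1 ha2 hE'
  obtain ⟨τ, hτ⟩ : ∃ τ, τ = ∑ e', (-1 : ℂ) ^ c e' * c e' := ⟨_, rfl⟩
  have hs : ∑ e', (-1 : ℂ) ^ c e' * (-((g b0 : ℂ) - g a0) * c e') = -((g b0 : ℂ) - g a0) * τ := by
    rw [hτ, Finset.mul_sum]
    exact Finset.sum_congr rfl fun _ _ => by ring
  simp only [hs] at hκ'
  have hq : ∀ e e', (2 * (c e : ℂ) - τ) ^ 2 = (2 * c e' - τ) ^ 2 := fun e e' =>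
    mul_left_cancel₀ (pow_ne_zero 2 hδ) (by linear_combination hκ' e - hκ' e')
  have e0 : (c a0 : ℂ) = c b0 + 1 := by exact_mod_cast hC.deg a0 b0 hab
  have e1 : τ = 2 * c b0 + 1 := by
    have := hq a0 b0
    rw [e0] at this
    linear_combination -this / 4
  have hterm : ∀ e, (-1 : ℂ) ^ c e * (2 * c e - τ) = -(-1) ^ c b0 := fun e => by
    have e2 : ((c e : ℂ) - c b0) * (c e - (c b0 + 1)) = 0 := by
      have := hq e b0
      rw [e1] at this
      linear_combination this / 4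
    rcases mul_eq_zero.1 e2 with h | h
    · have h' : c e = c b0 := by exact_mod_cast sub_eq_zero.1 h
      rw [h', e1]; ring
    · have h' : c e = c b0 + 1 := by exact_mod_cast sub_eq_zero.1 h
      rw [h', e1, zpow_add_one₀ (by norm_num)]; push_cast; ring
  have hz : ∑ e, (-1 : ℂ) ^ c e * (2 * c e - τ) = 0 := by
    have : ∀ e, (-1 : ℂ) ^ c e * (2 * c e - τ) = 2 * ((-1) ^ c e * c e) - (-1) ^ c e * τ :=
      fun e => by ring
    simp only [this]
    rw [Finset.sum_sub_distrib, ← Finset.mul_sum, ← Finset.sum_mul, h2, ← hτ, sub_self]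
  simp only [hterm, Finset.sum_const, Finset.card_univ, nsmul_eq_mul] at hz
  have : Nonempty I := ⟨a0⟩
  exact mul_ne_zero (Nat.cast_ne_zero.2 Fintype.card_ne_zero)
    (neg_ne_zero.2 (zpow_ne_zero _ (by norm_num))) hz

end Pool.Agent.P.MP_b01859_ag.SG
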